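import Pool.Agent.X100.WS.Tent

/-! Arcs on the circle: the indicator of an arc, correlations, and integration by parts. -/

namespace Pool.Agent.X100.HT

open MeasureTheory Pool.Agent.X100.WS

/-- The indicator of the arc of half-length `d` around the integers. -/
noncomputable def ind (d y : ℝ) : ℝ := if nrm y ≤ d then 1 else 0

lemma ind_nonneg (d y : ℝ) : 0 ≤ ind d y := by
  unfold ind; split_ifs <;> norm_num

lemma ind_le_one (d y : ℝ) : ind d y ≤ 1 := by
  unfold ind; split_ifs <;> norm_num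

lemma ind_mono {d e y z : ℝ} (h : nrm y ≤ d → nrm z ≤ e) : ind d y ≤ ind e z := by
  unfold ind
  split_ifs with h1 h2
  · exact le_rfl
  · exact absurd (h h1) h2
  · norm_num
  · exact le_rfl

@[fun_prop]
lemma ind_measurable (d : ℝ) : Measurable (ind d) :=
  Measurable.ite (measurableSet_le nrm_continuous.measurable measurable_const)
    measurable_const measurable_const

lemma ind_periodic (d : ℝ) : Function.Periodic (ind d) 1 := fun y => by
  unfold ind; rw [nrm_add_one]

lemma nrm_neg (y : ℝ) : nrm (-y) = nrm y := by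
  unfold nrm
  rw [AddCircle.coe_neg, norm_neg]

lemma ind_neg (d y : ℝ) : ind d (-y) = ind d y := by
  unfold ind; rw [nrm_neg]

lemma intervalIntegrable_of_bdd {f : ℝ → ℝ} (hf : Measurable f) (h : ∀ y, |f y| ≤ 1) (a b : ℝ) :
    IntervalIntegrable f volume a b := by
  rw [intervalIntegrable_iff]
  refine Measure.integrableOn_of_bounded (M := 1) ?_ hf.aestronglyMeasurable ?_
  · rw [Set.uIoc]; exact measure_Ioc_lt_top.ne
  · exact Filter.Eventually.of_forall fun y => by rw [Real.norm_eq_abs]; exact h y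

lemma ind_abs (d y : ℝ) : |ind d y| ≤ 1 := by
  rw [abs_of_nonneg (ind_nonneg _ _)]; exact ind_le_one _ _

lemma ind_mul_abs (d e y z : ℝ) : |ind d y * ind e z| ≤ 1 := by
  rw [abs_mul]
  exact mul_le_one₀ (ind_abs _ _) (abs_nonneg _) (ind_abs _ _)

lemma periodic_shift {f : ℝ → ℝ} (hf : Function.Periodic f 1) (u : ℝ) :
    ∫ s in (0:ℝ)..1, f (u - s) = ∫ s in (0:ℝ)..1, f s := by
  have h1 := intervalIntegral.integral_comp_sub_left f u (a := 0) (b := 1)
  rw [h1]
  have h3 := hf.intervalIntegral_add_eq (u - 1) 0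
  rw [show u - 1 + 1 = u - 0 by ring] at h3
  rw [h3, zero_add]

lemma periodic_shift' {f : ℝ → ℝ} (hf : Function.Periodic f 1) (u : ℝ) :
    ∫ s in (0:ℝ)..1, f (s + u) = ∫ s in (0:ℝ)..1, f s := by
  rw [intervalIntegral.integral_comp_add_right f u]
  rw [show (0:ℝ) + u = u by ring, show (1:ℝ) + u = u + 1 by ring,
      hf.intervalIntegral_add_eq u 0, zero_add]

lemma ind_mass {d : ℝ} (hd : 0 ≤ d) (hd1 : d < 1 / 2) : ∫ t in (0:ℝ)..1, ind d t = 2 * d := by
  have h3 := (ind_periodic d).intervalIntegral_add_eq (-(1/2)) 0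
  rw [show -(1/2 : ℝ) + 1 = 1 / 2 by norm_num, zero_add] at h3
  rw [← h3, intervalIntegral.integral_of_le (by norm_num)]
  have h4 : ∫ x in Set.Ioc (-(1/2 : ℝ)) (1/2), ind d x
      = ∫ x in Set.Ioc (-(1/2 : ℝ)) (1/2), (Set.Icc (-d) d).indicator (fun _ => (1:ℝ)) x := by
    apply setIntegral_congr_fun measurableSet_Ioc
    intro x hx
    have h5 : |x| ≤ 1 / 2 := abs_le.2 ⟨hx.1.le, hx.2⟩
    simp only [ind, Set.indicator, Set.mem_Icc, nrm_of_le h5, abs_le]
  rw [h4, setIntegral_indicator measurableSet_Icc]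
  have h6 : Set.Ioc (-(1/2 : ℝ)) (1/2) ∩ Set.Icc (-d) d = Set.Icc (-d) d := by
    apply Set.inter_eq_right.2
    intro x hx
    exact ⟨by linarith [hx.1], by linarith [hx.2]⟩
  rw [h6]
  simp only [integral_const, smul_eq_mul, mul_one, MeasurableSet.univ, Measure.real,
    Measure.restrict_apply, Set.univ_inter, Real.volume_Icc]
  rw [ENNReal.toReal_ofReal (by linarith)]
  ring

lemma ind_mass' {d : ℝ} (hd : 0 ≤ d) (hd1 : d < 1 / 2) (u : ℝ) :
    ∫ t in (0:ℝ)..1, ind d (u - t) = 2 * d := by
  rw [periodic_shift (ind_periodic d), ind_mass hd hd1]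

/-- Correlation of two arcs. -/
noncomputable def J (d e w : ℝ) : ℝ := ∫ t in (0:ℝ)..1, ind d (w + t) * ind e t

lemma J_nonneg (d e w : ℝ) : 0 ≤ J d e w :=
  intervalIntegral.integral_nonneg zero_le_one
    fun _ _ => mul_nonneg (ind_nonneg _ _) (ind_nonneg _ _)

lemma J_periodic (d e : ℝ) : Function.Periodic (J d e) 1 := fun z => by
  unfold J
  congr 1
  ext s
  rw [show z + 1 + s = z + s + 1 by ring, ind_periodic d]

lemma pair_eq (d e u v : ℝ) :
    ∫ s in (0:ℝ)..1, ind d (u - s) * ind e (v - s) = J d e (u - v) := by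
  have hper : Function.Periodic (fun s => ind d (u - v + s) * ind e s) 1 := fun s => by
    dsimp only
    rw [show u - v + (s + 1) = u - v + s + 1 by ring, ind_periodic d, ind_periodic e]
  have h := periodic_shift hper v
  have h2 : ∀ s : ℝ, ind d (u - v + (v - s)) * ind e (v - s) = ind d (u - s) * ind e (v - s) := by
    intro s
    rw [show u - v + (v - s) = u - s by ring]
  simp only [h2] at h
  exact h

lemma J_diff {d e w w' : ℝ} (hd : 0 ≤ d) (h : d + |w - w'| < 1 / 2) :
    J d e w - J d e w' ≤ 2 * |w - w'| := by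
  set η := |w - w'| with hη
  have hη0 : 0 ≤ η := abs_nonneg _
  unfold J
  rw [← intervalIntegral.integral_sub
    (intervalIntegrable_of_bdd (by fun_prop) (fun y => ind_mul_abs _ _ _ _) _ _)
    (intervalIntegrable_of_bdd (by fun_prop) (fun y => ind_mul_abs _ _ _ _) _ _)]
  have h1 : ∫ t in (0:ℝ)..1, (ind d (w + t) * ind e t - ind d (w' + t) * ind e t)
      ≤ ∫ t in (0:ℝ)..1, (ind (d + η) (w' + t) - ind d (w' + t)) := by
    apply intervalIntegral.integral_mono_on zero_le_one
    · exact (intervalIntegrable_of_bdd (by fun_prop) (fun y => ind_mul_abs _ _ _ _) _ _).sub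
        (intervalIntegrable_of_bdd (by fun_prop) (fun y => ind_mul_abs _ _ _ _) _ _)
    · exact (intervalIntegrable_of_bdd (by fun_prop) (fun y => ind_abs _ _) _ _).sub
        (intervalIntegrable_of_bdd (by fun_prop) (fun y => ind_abs _ _) _ _)
    · intro t _
      have h2 : ind d (w + t) ≤ ind (d + η) (w' + t) := by
        apply ind_mono
        intro h3
        have h4 := nrm_sub_le (w + t) (w - w')
        rw [show w + t - (w - w') = w' + t by ring] at h4
        have h5 : nrm (w - w') = η := nrm_of_le (by linarith)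
        linarith
      have h3 : ind d (w' + t) ≤ ind (d + η) (w' + t) := ind_mono fun h => by linarith
      have h4 := ind_nonneg e t
      have h5 := ind_le_one e t
      nlinarith
  rw [intervalIntegral.integral_sub
    (intervalIntegrable_of_bdd (by fun_prop) (fun y => ind_abs _ _) _ _)
    (intervalIntegrable_of_bdd (by fun_prop) (fun y => ind_abs _ _) _ _)] at h1
  have h6 : ∀ d : ℝ, ∫ t in (0:ℝ)..1, ind d (w' + t) = ∫ t in (0:ℝ)..1, ind d t := by
    intro d
    have := periodic_shift' (ind_periodic d) w'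
    simpa [add_comm] using this
  rw [h6, h6, ind_mass (by linarith) h, ind_mass hd (by linarith)] at h1
  linarith

lemma J_continuous {d : ℝ} (hd : 0 ≤ d) (hd1 : d ≤ 1 / 4) (e : ℝ) : Continuous (J d e) := by
  rw [Metric.continuous_iff]
  intro w ε hε
  refine ⟨min (1/8) (ε / 4), by positivity, fun w' hw' => ?_⟩
  rw [Real.dist_eq] at hw' ⊢
  have h1 : |w' - w| < 1 / 8 := lt_of_lt_of_le hw' (min_le_left _ _)
  have h2 : |w' - w| < ε / 4 := lt_of_lt_of_le hw' (min_le_right _ _)
  have h3 := J_diff (e := e) (w := w') (w' := w) hd (by linarith)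
  have h4 := J_diff (e := e) (w := w) (w' := w') hd (by rw [abs_sub_comm]; linarith)
  rw [abs_sub_comm w w'] at h4
  rw [abs_lt]
  constructor <;> linarith

lemma J_integral {d e : ℝ} (hd : 0 ≤ d) (hd1 : d < 1 / 2) (he : 0 ≤ e) (he1 : e < 1 / 2) :
    ∫ w in (0:ℝ)..1, J d e w = 2 * d * (2 * e) := by
  unfold J
  have h1 : (∫ w in (0:ℝ)..1, ∫ t in (0:ℝ)..1, ind d (w + t) * ind e t)
      = ∫ t in (0:ℝ)..1, ∫ w in (0:ℝ)..1, ind d (w + t) * ind e t := by
    refine intervalIntegral_intervalIntegral_swap ?_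
    refine Measure.integrableOn_of_bounded (M := 1) ?_ ?_ ?_
    · have : volume (Set.uIoc (0:ℝ) 1 ×ˢ Set.uIoc (0:ℝ) 1) ≤ 1 := by
        rw [Set.uIoc_of_le zero_le_one, Measure.volume_eq_prod, Measure.prod_prod,
          Real.volume_Ioc]
        simp
      exact ne_top_of_le_ne_top ENNReal.one_ne_top this
    · have : Measurable (Function.uncurry fun w t : ℝ => ind d (w + t) * ind e t) := by
        unfold Function.uncurry
        fun_prop
      exact this.aestronglyMeasurable
    · exact Filter.Eventually.of_forall fun p => by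
        rw [Real.norm_eq_abs]
        exact ind_mul_abs _ _ _ _
  rw [h1]
  have h2 : ∀ t : ℝ, (∫ w in (0:ℝ)..1, ind d (w + t) * ind e t) = 2 * d * ind e t := by
    intro t
    rw [intervalIntegral.integral_mul_const, periodic_shift' (ind_periodic d), ind_mass hd hd1]
  simp_rw [h2]
  rw [intervalIntegral.integral_const_mul, ind_mass he he1]

section ibp

variable {φ : ℝ → ℝ} {m : ℝ}

/-- A primitive of `φ - m`. -/
noncomputable def prim (φ : ℝ → ℝ) (m y : ℝ) : ℝ := ∫ z in (0:ℝ)..y, (φ z - m)

lemma prim_deriv (hφ : Continuous φ) (y : ℝ) : HasDerivAt (prim φ m) (φ y - m) y := by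
  have hc : Continuous fun z => φ z - m := by fun_prop
  exact intervalIntegral.integral_hasDerivAt_right (hc.intervalIntegrable _ _)
    (hc.stronglyMeasurableAtFilter _ _) hc.continuousAt

lemma prim_periodic (hφ : Continuous φ) (hp : Function.Periodic φ 1)
    (hm : ∫ z in (0:ℝ)..1, φ z = m) : Function.Periodic (prim φ m) 1 := fun y => by
  have hc : Continuous fun z => φ z - m := by fun_prop
  unfold prim
  rw [← intervalIntegral.integral_add_adjacent_intervals (hc.intervalIntegrable 0 y)
    (hc.intervalIntegrable y (y+1))]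
  have hper : Function.Periodic (fun z => φ z - m) 1 := fun z => by
    dsimp only; rw [hp]
  have h0 : ∫ z in (0:ℝ)..1, (φ z - m) = 0 := by
    rw [intervalIntegral.integral_sub (hφ.intervalIntegrable _ _)
      intervalIntegrable_const, hm]
    simp
  rw [hper.intervalIntegral_add_eq y 0, zero_add, h0, add_zero]

lemma prim_abs (hφ : Continuous φ) (hp : Function.Periodic φ 1) (h0 : ∀ z, 0 ≤ φ z)
    (hm : ∫ z in (0:ℝ)..1, φ z = m) (y : ℝ) : |prim φ m y| ≤ m := by
  obtain ⟨z, hz, hzy⟩ := (prim_periodic hφ hp hm).exists_mem_Ico₀ one_pos y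
  rw [hzy]
  unfold prim
  rw [intervalIntegral.integral_sub (hφ.intervalIntegrable _ _)
      intervalIntegrable_const, intervalIntegral.integral_const]
  simp only [sub_zero, smul_eq_mul]
  have h1 : 0 ≤ ∫ x in (0:ℝ)..z, φ x :=
    intervalIntegral.integral_nonneg hz.1 fun _ _ => h0 _
  have h2 : (∫ x in (0:ℝ)..z, φ x) + (∫ x in z..(1:ℝ), φ x) = m := by
    rw [intervalIntegral.integral_add_adjacent_intervals
      (hφ.intervalIntegrable _ _) (hφ.intervalIntegrable _ _), hm]
  have h3 : 0 ≤ ∫ x in z..(1:ℝ), φ x :=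
    intervalIntegral.integral_nonneg hz.2.le fun _ _ => h0 _
  have h4 : 0 ≤ m := by linarith
  have h5 : z * m ≤ m := by nlinarith [hz.2]
  have h6 : 0 ≤ z * m := mul_nonneg hz.1 h4
  rw [abs_le]
  constructor <;> linarith

/-- Integration by parts. -/
lemma ibp (hφ : Continuous φ) (hp : Function.Periodic φ 1) (h0 : ∀ z, 0 ≤ φ z)
    (hm : ∫ z in (0:ℝ)..1, φ z = m) {a b R : ℝ} (hab : a ≤ b) {g g1 r r1 : ℝ → ℝ}
    (hg : ∀ t ∈ Set.Icc a b, HasDerivAt g (g1 t) t)
    (hr : ∀ t ∈ Set.Icc a b, HasDerivAt r (r1 t) t)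
    (h1 : ∀ t ∈ Set.Icc a b, g1 t * r t = 1)
    (hr1 : (∀ t ∈ Set.Icc a b, r1 t ≤ 0) ∨ (∀ t ∈ Set.Icc a b, 0 ≤ r1 t))
    (hR : ∀ t ∈ Set.Icc a b, |r t| ≤ R)
    (hc : ContinuousOn r1 (Set.Icc a b)) :
    ∫ t in a..b, φ (g t) ≤ m * (b - a) + 4 * m * R := by
  have huc : Set.uIcc a b = Set.Icc a b := Set.uIcc_of_le hab
  have hgc : ContinuousOn g (Set.Icc a b) := fun t ht => (hg t ht).continuousAt.continuousWithinAt
  have hphi : ContinuousOn (fun t => φ (g t)) (Set.Icc a b) := hφ.comp_continuousOn hgc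
  have hprimc : Continuous (prim φ m) :=
    continuous_iff_continuousAt.2 fun y => (prim_deriv hφ y).continuousAt
  have hprim : ContinuousOn (fun t => prim φ m (g t)) (Set.Icc a b) :=
    hprimc.comp_continuousOn hgc
  have hI1 : IntervalIntegrable (fun t => φ (g t)) volume a b :=
    (hphi.mono huc.subset).intervalIntegrable
  have hI2 : IntervalIntegrable (fun t => prim φ m (g t) * r1 t) volume a b :=
    ((hprim.mul hc).mono huc.subset).intervalIntegrable
  have hI3 : IntervalIntegrable r1 volume a b := (hc.mono huc.subset).intervalIntegrable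
  have hF : ∀ t ∈ Set.uIcc a b, HasDerivAt (fun t => prim φ m (g t) * r t)
      ((φ (g t) - m) + prim φ m (g t) * r1 t) t := by
    intro t ht
    rw [huc] at ht
    have h2 : HasDerivAt (fun t => prim φ m (g t)) ((φ (g t) - m) * g1 t) t :=
      (prim_deriv hφ (g t)).comp t (hg t ht)
    have h3 := h2.mul (hr t ht)
    have e : (φ (g t) - m) * g1 t * r t + prim φ m (g t) * r1 t
        = (φ (g t) - m) + prim φ m (g t) * r1 t := by
      rw [mul_assoc, h1 t ht, mul_one]
    rw [e] at h3
    exact h3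
  have h4 := intervalIntegral.integral_eq_sub_of_hasDerivAt hF
    ((hI1.sub intervalIntegrable_const).add hI2)
  rw [intervalIntegral.integral_add (hI1.sub intervalIntegrable_const) hI2,
    intervalIntegral.integral_sub hI1 intervalIntegrable_const,
    intervalIntegral.integral_const, smul_eq_mul] at h4
  have h5 := intervalIntegral.integral_eq_sub_of_hasDerivAt
    (fun t ht => hr t (by rwa [huc] at ht)) hI3
  have ha : a ∈ Set.Icc a b := ⟨le_rfl, hab⟩
  have hb : b ∈ Set.Icc a b := ⟨hab, le_rfl⟩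
  have hm0 : 0 ≤ m := by
    rw [← hm]; exact intervalIntegral.integral_nonneg zero_le_one fun _ _ => h0 _
  have habs : ∀ y, |prim φ m y| ≤ m := prim_abs hφ hp h0 hm
  have h11 := abs_le.1 (hR a ha)
  have h12 := abs_le.1 (hR b hb)
  have h6 : -(∫ t in a..b, prim φ m (g t) * r1 t) ≤ m * (2 * R) := by
    rcases hr1 with hr1 | hr1
    · have h6 : -(∫ t in a..b, prim φ m (g t) * r1 t) ≤ -(m * ∫ t in a..b, r1 t) := by
        rw [← intervalIntegral.integral_const_mul, neg_le_neg_iff]
        apply intervalIntegral.integral_mono_on hab (hI3.const_mul _) hI2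
        intro t ht
        have h7 := abs_le.1 (habs (g t))
        have h8 := hr1 t ht
        nlinarith [h7.1, h7.2]
      rw [h5] at h6
      have : r a - r b ≤ 2 * R := by linarith [h11.2, h12.1]
      nlinarith
    · have h6 : -(∫ t in a..b, prim φ m (g t) * r1 t) ≤ m * ∫ t in a..b, r1 t := by
        rw [← intervalIntegral.integral_const_mul, ← intervalIntegral.integral_neg]
        apply intervalIntegral.integral_mono_on hab hI2.neg (hI3.const_mul _)
        intro t ht
        have h7 := abs_le.1 (habs (g t))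
        have h8 := hr1 t ht
        change -(prim φ m (g t) * r1 t) ≤ m * r1 t
        nlinarith [h7.1, h7.2]
      rw [h5] at h6
      have : r b - r a ≤ 2 * R := by linarith [h11.1, h12.2]
      nlinarith
  have hbd : ∀ t ∈ Set.Icc a b, |prim φ m (g t) * r t| ≤ m * R := by
    intro t ht
    rw [abs_mul]
    exact mul_le_mul (habs _) (hR t ht) (abs_nonneg _) hm0
  have h9 := abs_le.1 (hbd a ha)
  have h10 := abs_le.1 (hbd b hb)
  nlinarith [h9.1, h10.2]

end ibp

end Pool.Agent.X100.HT
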