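import Mathlib

/-! Comparison of powers, and limits of quotients of sums. -/

namespace Pool.Agent.X100.HT

open Finset Filter Topology

lemma pow_sub_ge' (n : ℕ) {a b : ℝ} (hb : 0 ≤ b) (hab : b ≤ a) :
    ((n : ℝ) + 1) * b ^ n * (a - b) ≤ a ^ (n + 1) - b ^ (n + 1) := by
  induction n with
  | zero => simp
  | succ n ih =>
    have h0 : 0 ≤ (((n : ℝ) + 1) * b ^ n * (a - b)) := by
      have : 0 ≤ a - b := by linarith
      positivity
    have e1 : a ^ (n + 1 + 1) - b ^ (n + 1 + 1)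
        = a * (a ^ (n + 1) - b ^ (n + 1)) + (a - b) * b ^ (n + 1) := by ring
    have h1 : b * (((n : ℝ) + 1) * b ^ n * (a - b)) ≤ a * (a ^ (n + 1) - b ^ (n + 1)) :=
      mul_le_mul hab ih h0 (by linarith)
    rw [e1]
    push_cast
    have e2 : ((n : ℝ) + 1 + 1) * b ^ (n + 1) * (a - b)
        = b * (((n : ℝ) + 1) * b ^ n * (a - b)) + (a - b) * b ^ (n + 1) := by ring
    linarith

lemma pow_sub_le' (n : ℕ) {a b : ℝ} (hb : 0 ≤ b) (hab : b ≤ a) :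
    a ^ (n + 1) - b ^ (n + 1) ≤ ((n : ℝ) + 1) * a ^ n * (a - b) := by
  induction n with
  | zero => simp
  | succ n ih =>
    have ha : 0 ≤ a := hb.trans hab
    have h2 : b ^ (n + 1) ≤ a ^ (n + 1) := pow_le_pow_left₀ hb hab _
    have e1 : a ^ (n + 1 + 1) - b ^ (n + 1 + 1)
        = a * (a ^ (n + 1) - b ^ (n + 1)) + (a - b) * b ^ (n + 1) := by ring
    have h3 : a * (a ^ (n + 1) - b ^ (n + 1)) ≤ a * (((n : ℝ) + 1) * a ^ n * (a - b)) :=
      mul_le_mul_of_nonneg_left ih ha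
    have h4 : (a - b) * b ^ (n + 1) ≤ (a - b) * a ^ (n + 1) :=
      mul_le_mul_of_nonneg_left h2 (by linarith)
    rw [e1]
    push_cast
    have e2 : ((n : ℝ) + 1 + 1) * a ^ (n + 1) * (a - b)
        = a * (((n : ℝ) + 1) * a ^ n * (a - b)) + (a - b) * a ^ (n + 1) := by ring
    linarith

lemma abs_pow_ge (n : ℕ) {Y U b : ℝ} (hb : 0 ≤ b) (hY : b ≤ Y) (hU : b ≤ U) :
    ((n : ℝ) + 1) * b ^ n * |Y - U| ≤ |Y ^ (n + 1) - U ^ (n + 1)| := by
  rcases le_total U Y with h | h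
  · rw [abs_of_nonneg (by linarith), abs_of_nonneg (sub_nonneg.2
      (pow_le_pow_left₀ (hb.trans hU) h _))]
    refine le_trans ?_ (pow_sub_ge' n (hb.trans hU) h)
    apply mul_le_mul_of_nonneg_right _ (by linarith)
    exact mul_le_mul_of_nonneg_left (pow_le_pow_left₀ hb hU n) (by positivity)
  · rw [abs_sub_comm, abs_of_nonneg (by linarith), abs_sub_comm (Y ^ (n + 1)),
      abs_of_nonneg (sub_nonneg.2 (pow_le_pow_left₀ (hb.trans hY) h _))]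
    refine le_trans ?_ (pow_sub_ge' n (hb.trans hY) h)
    apply mul_le_mul_of_nonneg_right _ (by linarith)
    exact mul_le_mul_of_nonneg_left (pow_le_pow_left₀ hb hY n) (by positivity)

lemma abs_pow_ge_right (n : ℕ) {Y U : ℝ} (hY : 0 ≤ Y) (hU : 0 ≤ U) :
    U ^ n * |Y - U| ≤ |Y ^ (n + 1) - U ^ (n + 1)| := by
  rcases le_total U Y with h | h
  · rw [abs_of_nonneg (by linarith), abs_of_nonneg (sub_nonneg.2 (pow_le_pow_left₀ hU h _))]
    have h1 : U ^ n ≤ Y ^ n := pow_le_pow_left₀ hU h n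
    have h2 : Y * U ^ n ≤ Y * Y ^ n := mul_le_mul_of_nonneg_left h1 hY
    have e1 : Y ^ (n + 1) = Y * Y ^ n := by ring
    have e2 : U ^ (n + 1) = U * U ^ n := by ring
    rw [e1, e2]
    nlinarith
  · rw [abs_sub_comm, abs_of_nonneg (by linarith), abs_sub_comm (Y ^ (n + 1)),
      abs_of_nonneg (sub_nonneg.2 (pow_le_pow_left₀ hY h _))]
    have h1 : Y ^ n ≤ U ^ n := pow_le_pow_left₀ hY h n
    have h2 : Y * Y ^ n ≤ Y * U ^ n := mul_le_mul_of_nonneg_left h1 hY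
    have e1 : Y ^ (n + 1) = Y * Y ^ n := by ring
    have e2 : U ^ (n + 1) = U * U ^ n := by ring
    rw [e1, e2]
    nlinarith

lemma abs_pow_le (n : ℕ) {Y U M : ℝ} (hY : 0 ≤ Y) (hU : 0 ≤ U) (hYM : Y ≤ M) (hUM : U ≤ M) :
    |Y ^ (n + 1) - U ^ (n + 1)| ≤ ((n : ℝ) + 1) * M ^ n * |Y - U| := by
  rcases le_total U Y with h | h
  · rw [abs_of_nonneg (sub_nonneg.2 (pow_le_pow_left₀ hU h _)), abs_of_nonneg (by linarith)]
    refine (pow_sub_le' n hU h).trans ?_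
    apply mul_le_mul_of_nonneg_right _ (by linarith)
    exact mul_le_mul_of_nonneg_left (pow_le_pow_left₀ hY hYM n) (by positivity)
  · rw [abs_sub_comm, abs_of_nonneg (sub_nonneg.2 (pow_le_pow_left₀ hY h _)),
      abs_sub_comm Y, abs_of_nonneg (by linarith)]
    refine (pow_sub_le' n hY h).trans ?_
    apply mul_le_mul_of_nonneg_right _ (by linarith)
    exact mul_le_mul_of_nonneg_left (pow_le_pow_left₀ hU hUM n) (by positivity)

lemma rpow_tendsto {α : ℝ} (hα : 0 < α) : Tendsto (fun x : ℕ => (x : ℝ) ^ α) atTop atTop :=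
  (tendsto_rpow_atTop hα).comp tendsto_natCast_atTop_atTop

lemma ratio_up {α : ℝ} (hα : 0 < α) (n : ℕ) {ε : ℝ} (hε : 0 < ε) :
    ∀ᶠ x : ℕ in atTop, 1 < (x : ℝ) ^ α ∧
      ((x : ℝ) ^ α) ^ n ≤ (1 + ε) * ((x : ℝ) ^ α - 1) ^ n := by
  have h1 : Tendsto (fun x : ℕ => (1 - ((x : ℝ) ^ α)⁻¹) ^ n) atTop (𝓝 1) := by
    have h2 := (tendsto_inv_atTop_zero.comp (rpow_tendsto hα))
    have h3 := ((tendsto_const_nhds (x := (1:ℝ))).sub h2).pow n
    simpa using h3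
  have h2 : (1 + ε)⁻¹ < 1 := inv_lt_one_of_one_lt₀ (by linarith)
  filter_upwards [h1.eventually (lt_mem_nhds h2),
    (rpow_tendsto hα).eventually (eventually_gt_atTop 1)] with x hx hx1
  refine ⟨hx1, ?_⟩
  have hW : 0 < (x : ℝ) ^ α := by linarith
  have e1 : ((x : ℝ) ^ α - 1) ^ n = ((x : ℝ) ^ α) ^ n * (1 - ((x : ℝ) ^ α)⁻¹) ^ n := by
    rw [← mul_pow]
    congr 1
    field_simp
  rw [e1]
  have h3 : 1 ≤ (1 + ε) * (1 - ((x : ℝ) ^ α)⁻¹) ^ n := by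
    have := mul_le_mul_of_nonneg_left hx.le (show 0 ≤ 1 + ε by linarith)
    rwa [mul_inv_cancel₀ (by linarith)] at this
  calc ((x : ℝ) ^ α) ^ n = ((x : ℝ) ^ α) ^ n * 1 := (mul_one _).symm
    _ ≤ ((x : ℝ) ^ α) ^ n * ((1 + ε) * (1 - ((x : ℝ) ^ α)⁻¹) ^ n) :=
        mul_le_mul_of_nonneg_left h3 (by positivity)
    _ = _ := by ring

lemma ratio_low {α : ℝ} (hα : 0 < α) (n : ℕ) {ε : ℝ} (hε : 0 < ε) (hε1 : ε < 1) :
    ∀ᶠ x : ℕ in atTop, (1 - ε) * (((x : ℝ) + 1) ^ α + 1) ^ n ≤ ((x : ℝ) ^ α) ^ n := by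
  have h1 : Tendsto (fun x : ℕ => ((1 + 1 / (x : ℝ)) ^ α + ((x : ℝ) ^ α)⁻¹) ^ n) atTop (𝓝 1) := by
    have h2 := (tendsto_inv_atTop_zero.comp (rpow_tendsto hα))
    have h3 : Tendsto (fun x : ℕ => (1 + 1 / (x : ℝ)) ^ α) atTop (𝓝 1) := by
      have h4 := (tendsto_const_nhds (x := (1:ℝ))).add (tendsto_one_div_atTop_nhds_zero_nat (𝕜 := ℝ))
      rw [add_zero] at h4
      have h5 := h4.rpow_const (p := α) (Or.inl one_ne_zero)
      rwa [Real.one_rpow] at h5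
    have h4 := (h3.add h2).pow n
    simpa using h4
  have h2 : 1 < (1 - ε)⁻¹ := (one_lt_inv₀ (by linarith)).2 (by linarith)
  filter_upwards [h1.eventually (gt_mem_nhds h2), eventually_ge_atTop 1] with x hx hx1
  have hx0 : (0:ℝ) < x := by exact_mod_cast hx1
  have hW : 0 < (x : ℝ) ^ α := by positivity
  have e1 : (((x : ℝ) + 1) ^ α + 1) ^ n
      = ((x : ℝ) ^ α) ^ n * ((1 + 1 / (x : ℝ)) ^ α + ((x : ℝ) ^ α)⁻¹) ^ n := by
    rw [← mul_pow]
    congr 1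
    rw [mul_add, mul_inv_cancel₀ hW.ne', ← Real.mul_rpow hx0.le (by positivity)]
    congr 2
    field_simp
  rw [e1]
  have h3 : (1 - ε) * ((1 + 1 / (x : ℝ)) ^ α + ((x : ℝ) ^ α)⁻¹) ^ n ≤ 1 := by
    have := mul_le_mul_of_nonneg_left hx.le (show 0 ≤ 1 - ε by linarith)
    rwa [mul_inv_cancel₀ (by linarith)] at this
  calc (1 - ε) * (((x : ℝ) ^ α) ^ n * ((1 + 1 / (x : ℝ)) ^ α + ((x : ℝ) ^ α)⁻¹) ^ n)
      = ((x : ℝ) ^ α) ^ n * ((1 - ε) * ((1 + 1 / (x : ℝ)) ^ α + ((x : ℝ) ^ α)⁻¹) ^ n) := by ring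
    _ ≤ ((x : ℝ) ^ α) ^ n * 1 := mul_le_mul_of_nonneg_left h3 (by positivity)
    _ = _ := mul_one _

lemma comp_up {α : ℝ} (hα : 0 < α) (n : ℕ) {ε : ℝ} (hε : 0 < ε) :
    ∀ᶠ x : ℕ in atTop, ∀ s Y ψ : ℝ, 0 ≤ s → 0 ≤ Y → ψ ≤ ((x : ℝ) ^ α) ^ n →
      |Y ^ (n + 1) - (((x : ℝ) + s) ^ α) ^ (n + 1)| ≤ ψ →
      |Y - ((x : ℝ) + s) ^ α| ≤ (1 + ε) * (ψ / (((n : ℝ) + 1) * ((x : ℝ) ^ α) ^ n)) := by
  filter_upwards [ratio_up hα n hε] with x hx s Y ψ hs hY hψ h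
  obtain ⟨hx1, hx2⟩ := hx
  set W := (x : ℝ) ^ α with hW
  set U := ((x : ℝ) + s) ^ α with hU
  have hWU : W ≤ U := Real.rpow_le_rpow (by positivity) (by linarith) hα.le
  have hU0 : 0 < U := by linarith
  have hψ0 : 0 ≤ ψ := (abs_nonneg _).trans h
  have h1 : |Y - U| ≤ 1 := by
    have h2 := (abs_pow_ge_right n hY hU0.le).trans h
    have h3 : W ^ n ≤ U ^ n := pow_le_pow_left₀ (by linarith) hWU n
    have h4 : U ^ n * |Y - U| ≤ U ^ n * 1 := by linarith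
    exact le_of_mul_le_mul_left h4 (by positivity)
  have h2 := abs_le.1 h1
  have h3 := (abs_pow_ge n (b := W - 1) (Y := Y) (U := U) (by linarith) (by linarith)
    (by linarith)).trans h
  have hD : 0 < ((n : ℝ) + 1) * W ^ n := by positivity
  rw [← mul_div_assoc, le_div_iff₀ hD]
  calc |Y - U| * (((n : ℝ) + 1) * W ^ n) ≤ |Y - U| * (((n : ℝ) + 1) * ((1 + ε) * (W - 1) ^ n)) := by
        gcongr
    _ = (1 + ε) * (((n : ℝ) + 1) * (W - 1) ^ n * |Y - U|) := by ring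
    _ ≤ (1 + ε) * ψ := mul_le_mul_of_nonneg_left h3 (by linarith)

lemma comp_low {α : ℝ} (hα : 0 < α) (n : ℕ) {ε : ℝ} (hε : 0 < ε) (hε1 : ε < 1) :
    ∀ᶠ x : ℕ in atTop, ∀ s Y ψ : ℝ, 0 ≤ s → s ≤ 1 → 0 ≤ Y → 0 ≤ ψ → ψ ≤ ((x : ℝ) ^ α) ^ n →
      |Y - ((x : ℝ) + s) ^ α| ≤ (1 - ε) * (ψ / (((n : ℝ) + 1) * ((x : ℝ) ^ α) ^ n)) →
      |Y ^ (n + 1) - (((x : ℝ) + s) ^ α) ^ (n + 1)| ≤ ψ := by
  filter_upwards [ratio_low hα n hε hε1, eventually_ge_atTop 1] with x hx hx1 s Y ψ hs hs1 hY hψ0 hψ h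
  have hx0 : (0:ℝ) < x := by exact_mod_cast hx1
  set W := (x : ℝ) ^ α with hW
  set U := ((x : ℝ) + s) ^ α with hU
  have hW0 : 0 < W := by positivity
  have hU0 : 0 < U := by positivity
  have hUV : U ≤ ((x : ℝ) + 1) ^ α := Real.rpow_le_rpow (by positivity) (by linarith) hα.le
  have hD : 0 < ((n : ℝ) + 1) * W ^ n := by positivity
  have h1 : ψ / (((n : ℝ) + 1) * W ^ n) ≤ 1 := by
    rw [div_le_one hD]
    have : W ^ n ≤ ((n : ℝ) + 1) * W ^ n := by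
      have h2 : 0 ≤ (n : ℝ) * W ^ n := by positivity
      linarith
    linarith
  have h1' : 0 ≤ ψ / (((n : ℝ) + 1) * W ^ n) := by positivity
  have h2 : |Y - U| ≤ 1 := h.trans (by nlinarith)
  have h3 := abs_le.1 h2
  refine (abs_pow_le n (M := ((x : ℝ) + 1) ^ α + 1) hY hU0.le (by linarith) (by linarith)).trans ?_
  calc ((n : ℝ) + 1) * (((x : ℝ) + 1) ^ α + 1) ^ n * |Y - U|
      ≤ ((n : ℝ) + 1) * (((x : ℝ) + 1) ^ α + 1) ^ n
        * ((1 - ε) * (ψ / (((n : ℝ) + 1) * W ^ n))) :=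
        mul_le_mul_of_nonneg_left h (by positivity)
    _ = ((1 - ε) * (((x : ℝ) + 1) ^ α + 1) ^ n)
        * (((n : ℝ) + 1) * (ψ / (((n : ℝ) + 1) * W ^ n))) := by ring
    _ ≤ W ^ n * (((n : ℝ) + 1) * (ψ / (((n : ℝ) + 1) * W ^ n))) :=
        mul_le_mul_of_nonneg_right hx (by positivity)
    _ = ψ := by field_simp

lemma sum_cmp {a b : ℕ → ℝ} (ha : ∀ x, 0 ≤ a x) (hb : ∀ x, 0 ≤ b x) {x0 : ℕ}
    (h : ∀ x, x0 ≤ x → a x ≤ b x) (n : ℕ) :
    ∑ x ∈ range n, a (x + 1) ≤ ∑ x ∈ range n, b (x + 1) + ∑ x ∈ range x0, a (x + 1) := by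
  have h1 : ∑ x ∈ range n, (a (x + 1) - b (x + 1))
      ≤ ∑ x ∈ range n, (if x < x0 then a (x + 1) else 0) := by
    apply sum_le_sum
    intro x _
    split_ifs with hx
    · linarith [hb (x + 1)]
    · linarith [h (x + 1) (by omega)]
  have h2 : ∑ x ∈ range n, (if x < x0 then a (x + 1) else 0) ≤ ∑ x ∈ range x0, a (x + 1) := by
    rw [← sum_filter]
    apply sum_le_sum_of_subset_of_nonneg
    · intro x hx
      rw [mem_filter] at hx
      exact mem_range.2 hx.2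
    · intro x _ _
      exact ha _
  rw [sum_sub_distrib] at h1
  linarith

lemma ratio_lim {p q : ℕ → ℝ} {c : ℝ} {x0 : ℕ} (h : ∀ x, x0 ≤ x → q x = c * p x)
    (hinf : Tendsto (fun n => ∑ x ∈ range n, p (x + 1)) atTop atTop) :
    Tendsto (fun n => (∑ x ∈ range n, q (x + 1)) / ∑ x ∈ range n, p (x + 1)) atTop (𝓝 c) := by
  set D := ∑ x ∈ range x0, (q (x + 1) - c * p (x + 1)) with hD
  have h1 : ∀ n, x0 ≤ n → ∑ x ∈ range n, q (x + 1) = c * ∑ x ∈ range n, p (x + 1) + D := by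
    intro n hn
    have h2 : D = ∑ x ∈ range n, (q (x + 1) - c * p (x + 1)) := by
      apply sum_subset (range_subset_range.2 hn)
      intro x _ hx
      rw [mem_range, not_lt] at hx
      rw [h (x + 1) (by omega), sub_self]
    rw [h2, sum_sub_distrib, mul_sum]
    ring
  have h2 : Tendsto (fun n => c + D / ∑ x ∈ range n, p (x + 1)) atTop (𝓝 c) := by
    have := (tendsto_const_nhds (x := c)).add ((tendsto_const_nhds (x := D)).div_atTop hinf)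
    simpa using this
  refine h2.congr' ?_
  filter_upwards [eventually_ge_atTop x0, hinf.eventually (eventually_gt_atTop 0)] with n hn hpos
  rw [h1 n hn, add_div, mul_div_assoc, div_self hpos.ne', mul_one]

lemma squeeze_eps {B : ℕ → ℝ}
    (h : ∀ j : ℕ, ∃ u l : ℕ → ℝ, Tendsto u atTop (𝓝 (1 + 1 / ((j : ℝ) + 2))) ∧
      Tendsto l atTop (𝓝 (1 - 1 / ((j : ℝ) + 2))) ∧ ∀ᶠ n in atTop, l n ≤ B n ∧ B n ≤ u n) :
    Tendsto B atTop (𝓝 1) := by
  rw [tendsto_order]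
  constructor
  · intro a ha
    obtain ⟨j, hj⟩ := exists_nat_gt (1 / (1 - a))
    obtain ⟨u, l, hu, hl, hB⟩ := h j
    have h1 : 1 / ((j : ℝ) + 2) < 1 - a := by
      rw [div_lt_iff₀ (by positivity)]
      rw [div_lt_iff₀ (by linarith)] at hj
      nlinarith
    filter_upwards [hl.eventually (lt_mem_nhds (show a < 1 - 1 / ((j : ℝ) + 2) by linarith)), hB]
      with n hn hn2
    linarith [hn2.1]
  · intro a ha
    obtain ⟨j, hj⟩ := exists_nat_gt (1 / (a - 1))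
    obtain ⟨u, l, hu, hl, hB⟩ := h j
    have h1 : 1 / ((j : ℝ) + 2) < a - 1 := by
      rw [div_lt_iff₀ (by positivity)]
      rw [div_lt_iff₀ (by linarith)] at hj
      nlinarith
    filter_upwards [hu.eventually (gt_mem_nhds (show 1 + 1 / ((j : ℝ) + 2) < a by linarith)), hB]
      with n hn hn2
    linarith [hn2.2]

end Pool.Agent.X100.HT
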