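import Pool.Agent.X100.HT.Law
import Pool.Agent.X100.HT.Det

/-! Counting solutions of `|(y + t)^m - (x + s)^k| ≤ ψ x`. -/

namespace Pool.Agent.X100.HT

open Finset MeasureTheory Filter Topology Pool.Agent.X100.WS

/-- The `y` belonging to `x`. -/
def Sol (m k : ℕ) (ψ : ℕ → ℝ) (x : ℕ) (ω : ℝ × ℝ) : Set ℕ :=
  {y : ℕ | |((y : ℝ) + ω.2) ^ m - ((x : ℝ) + ω.1) ^ k| ≤ ψ x}

/-- The exponent `k / m`. -/
noncomputable def al (n k : ℕ) : ℝ := (k : ℝ) / ((n : ℝ) + 1)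

lemma al_gt {n k : ℕ} (h : n + 1 < k) : 1 < al n k := by
  unfold al
  rw [one_lt_div (by positivity)]
  exact_mod_cast h

lemma al_pow (n k : ℕ) {z : ℝ} (hz : 0 ≤ z) : (z ^ al n k) ^ (n + 1) = z ^ k := by
  unfold al
  rw [← Real.rpow_natCast, ← Real.rpow_mul hz, ← Real.rpow_natCast z k]
  congr 1
  push_cast
  field_simp

/-- Half the density. -/
noncomputable def del (n k : ℕ) (ψ : ℕ → ℝ) (x : ℕ) : ℝ :=
  ψ x / (((n : ℝ) + 1) * ((x : ℝ) ^ al n k) ^ n)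

/-- Truncation. -/
noncomputable def tr (x0 : ℕ) (c : ℝ) (δ : ℕ → ℝ) (x : ℕ) : ℝ := if x0 ≤ x then c * δ x else 0

lemma tr_of_ge {x0 x : ℕ} (c : ℝ) (δ : ℕ → ℝ) (h : x0 ≤ x) : tr x0 c δ x = c * δ x := if_pos h

lemma Sol_finite (n k : ℕ) (ψ : ℕ → ℝ) (x : ℕ) {ω : ℝ × ℝ} (_ : 0 ≤ ω.1) (h1 : 0 ≤ ω.2) :
    (Sol (n + 1) k ψ x ω).Finite := by
  apply (Set.finite_Iic ⌈ψ x + ((x : ℝ) + ω.1) ^ k + 1⌉₊).subset
  intro y hy
  rw [Set.mem_Iic]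
  have h2 : ((y : ℝ) + ω.2) ^ (n + 1) ≤ ψ x + ((x : ℝ) + ω.1) ^ k := by
    have h3 : |((y : ℝ) + ω.2) ^ (n + 1) - ((x : ℝ) + ω.1) ^ k| ≤ ψ x := hy
    have := abs_le.1 h3
    linarith [this.2]
  have h3 : (y : ℝ) ≤ ((y : ℝ) + ω.2) ^ (n + 1) + 1 := by
    rcases Nat.eq_zero_or_pos y with h | h
    · rw [h]; push_cast; positivity
    · have h4 : (1:ℝ) ≤ y := by exact_mod_cast h
      have h5 : (y : ℝ) ≤ (y : ℝ) ^ (n + 1) := le_self_pow₀ h4 (by omega)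
      have h6 : (y : ℝ) ^ (n + 1) ≤ ((y : ℝ) + ω.2) ^ (n + 1) :=
        pow_le_pow_left₀ (by positivity) (by linarith) _
      linarith
  have h4 : (y : ℝ) ≤ ⌈ψ x + ((x : ℝ) + ω.1) ^ k + 1⌉₊ :=
    (h3.trans (by linarith)).trans (Nat.le_ceil _)
  exact_mod_cast h4

/-- Everything which is needed at `x`. -/
def Good (n k : ℕ) (ψ : ℕ → ℝ) (ρ ε : ℝ) (x : ℕ) : Prop :=
  (∀ s Y ψ' : ℝ, 0 ≤ s → 0 ≤ Y → ψ' ≤ ((x : ℝ) ^ al n k) ^ n →
      |Y ^ (n + 1) - (((x : ℝ) + s) ^ al n k) ^ (n + 1)| ≤ ψ' →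
      |Y - ((x : ℝ) + s) ^ al n k| ≤ (1 + ε) * (ψ' / (((n : ℝ) + 1) * ((x : ℝ) ^ al n k) ^ n))) ∧
  (∀ s Y ψ' : ℝ, 0 ≤ s → s ≤ 1 → 0 ≤ Y → 0 ≤ ψ' → ψ' ≤ ((x : ℝ) ^ al n k) ^ n →
      |Y - ((x : ℝ) + s) ^ al n k| ≤ (1 - ε) * (ψ' / (((n : ℝ) + 1) * ((x : ℝ) ^ al n k) ^ n)) →
      |Y ^ (n + 1) - (((x : ℝ) + s) ^ al n k) ^ (n + 1)| ≤ ψ') ∧
  ψ x ≤ ((x : ℝ) ^ al n k) ^ n * (x : ℝ) ^ (-ρ) ∧ (x : ℝ) ^ (-ρ) ≤ 1 / 8 ∧ 1 ≤ x

lemma good_eventually {n k : ℕ} (hk : n + 1 < k) {ψ : ℕ → ℝ} {ρ ε : ℝ} (hρ : 0 < ρ)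
    (hψ : ∀ᶠ x : ℕ in atTop, ψ x ≤ ((x : ℝ) ^ al n k) ^ n * (x : ℝ) ^ (-ρ))
    (hε : 0 < ε) (hε1 : ε < 1) : ∀ᶠ x : ℕ in atTop, Good n k ψ ρ ε x := by
  have hα : 0 < al n k := by linarith [al_gt hk]
  have h1 : Tendsto (fun x : ℕ => (x : ℝ) ^ (-ρ)) atTop (𝓝 0) :=
    (tendsto_rpow_neg_atTop hρ).comp tendsto_natCast_atTop_atTop
  filter_upwards [comp_up hα n hε, comp_low hα n hε hε1, hψ,
    h1.eventually (ge_mem_nhds (show (0:ℝ) < 1 / 8 by norm_num)), eventually_ge_atTop 1]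
    with x a1 a2 a3 a4 a5
  exact ⟨a1, a2, a3, a4, a5⟩

section good

variable {n k : ℕ} {ψ : ℕ → ℝ} {ρ ε : ℝ} {x : ℕ}

lemma Good.psi_le (h : Good n k ψ ρ ε x) : ψ x ≤ ((x : ℝ) ^ al n k) ^ n := by
  obtain ⟨-, -, h3, h4, h5⟩ := h
  have h6 : 0 ≤ ((x : ℝ) ^ al n k) ^ n := by positivity
  refine h3.trans ?_
  calc ((x : ℝ) ^ al n k) ^ n * (x : ℝ) ^ (-ρ) ≤ ((x : ℝ) ^ al n k) ^ n * 1 :=
        mul_le_mul_of_nonneg_left (by linarith) h6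
    _ = _ := mul_one _

lemma Good.del_le (h : Good n k ψ ρ ε x) : del n k ψ x ≤ (x : ℝ) ^ (-ρ) := by
  obtain ⟨-, -, h3, h4, h5⟩ := h
  have hx0 : (0:ℝ) < x := by exact_mod_cast h5
  have h6 : 0 < ((x : ℝ) ^ al n k) ^ n := by positivity
  unfold del
  rw [div_le_iff₀ (by positivity)]
  refine h3.trans ?_
  have h7 : 0 ≤ (n : ℝ) * (((x : ℝ) ^ al n k) ^ n * (x : ℝ) ^ (-ρ)) := by positivity
  calc ((x : ℝ) ^ al n k) ^ n * (x : ℝ) ^ (-ρ)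
      ≤ ((x : ℝ) ^ al n k) ^ n * (x : ℝ) ^ (-ρ)
        + (n : ℝ) * (((x : ℝ) ^ al n k) ^ n * (x : ℝ) ^ (-ρ)) := by linarith
    _ = _ := by ring

lemma del_nonneg (hψ : ∀ x, 0 ≤ ψ x) (x : ℕ) : 0 ≤ del n k ψ x := by
  unfold del
  have := hψ x
  positivity

lemma Good.mem {ω : ℝ × ℝ} (h : Good n k ψ ρ ε x) (h0 : ω ∈ Set.Icc (0:ℝ) 1 ×ˢ Set.Icc (0:ℝ) 1)
    {y : ℕ} (hy : y ∈ Sol (n + 1) k ψ x ω) :
    |(y : ℝ) + ω.2 - ((x : ℝ) + ω.1) ^ al n k| ≤ (1 + ε) * del n k ψ x := by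
  have h1 := h.psi_le
  obtain ⟨⟨h2, h3⟩, h4, h5⟩ := h0
  apply h.1 ω.1 ((y : ℝ) + ω.2) (ψ x) h2 (by positivity) h1
  rw [al_pow n k (by positivity)]
  exact hy

lemma Good.upper (hψ0 : ∀ x, 0 ≤ ψ x) (hε1 : ε < 1) {ω : ℝ × ℝ} (h : Good n k ψ ρ ε x)
    (h0 : ω ∈ Set.Icc (0:ℝ) 1 ×ˢ Set.Icc (0:ℝ) 1) :
    ((Sol (n + 1) k ψ x ω).ncard : ℝ)
      ≤ ind ((1 + ε) * del n k ψ x) (((x : ℝ) + ω.1) ^ al n k - ω.2) := by
  have hd := h.del_le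
  have hd0 := del_nonneg (n := n) (k := k) hψ0 x
  have hx8 := h.2.2.2.1
  have hlt : (1 + ε) * del n k ψ x < 1 / 2 := by nlinarith
  rcases Set.eq_empty_or_nonempty (Sol (n + 1) k ψ x ω) with he | ⟨y, hy⟩
  · rw [he, Set.ncard_empty]
    simpa using ind_nonneg _ _
  · have h1 := h.mem h0 hy
    have h2 : nrm (((x : ℝ) + ω.1) ^ al n k - ω.2) ≤ (1 + ε) * del n k ψ x := by
      rw [nrm_eq]
      refine (round_le _ (y : ℤ)).trans ?_
      rw [abs_sub_comm]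
      push_cast
      rw [show (y : ℝ) - (((x : ℝ) + ω.1) ^ al n k - ω.2)
        = (y : ℝ) + ω.2 - ((x : ℝ) + ω.1) ^ al n k by ring]
      exact h1
    have h3 : ind ((1 + ε) * del n k ψ x) (((x : ℝ) + ω.1) ^ al n k - ω.2) = 1 := by
      unfold ind; rw [if_pos h2]
    rw [h3]
    have h4 : Sol (n + 1) k ψ x ω ⊆ {y} := by
      intro z hz
      rw [Set.mem_singleton_iff]
      have h5 := h.mem h0 hz
      have h6 := abs_le.1 h1
      have h7 := abs_le.1 h5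
      have h8 : ((z : ℝ) - y) < 1 := by linarith [h6.1, h7.2]
      have h9 : ((y : ℝ) - z) < 1 := by linarith [h6.2, h7.1]
      have h10 : (z : ℝ) < y + 1 := by linarith
      have h11 : (y : ℝ) < z + 1 := by linarith
      have h12 : z < y + 1 := by exact_mod_cast h10
      have h13 : y < z + 1 := by exact_mod_cast h11
      omega
    have h5 := Set.ncard_le_ncard h4 (Set.finite_singleton _)
    rw [Set.ncard_singleton] at h5
    exact_mod_cast h5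

lemma Good.lower (hψ0 : ∀ x, 0 ≤ ψ x) (hε : 0 < ε) (hε1 : ε < 1) {ω : ℝ × ℝ}
    (h : Good n k ψ ρ ε x) (h0 : ω ∈ Set.Icc (0:ℝ) 1 ×ˢ Set.Icc (0:ℝ) 1) (hk : n + 1 < k) :
    ind ((1 - ε) * del n k ψ x) (((x : ℝ) + ω.1) ^ al n k - ω.2)
      ≤ ((Sol (n + 1) k ψ x ω).ncard : ℝ) := by
  have hd := h.del_le
  have hd0 := del_nonneg (n := n) (k := k) hψ0 x
  have hx8 := h.2.2.2.1
  have hx1 := h.2.2.2.2
  obtain ⟨⟨h2, h3⟩, h4, h5⟩ := h0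
  have hlt : (1 - ε) * del n k ψ x < 1 / 2 := by nlinarith
  unfold ind
  split_ifs with hi
  · rw [nrm_eq] at hi
    set U := ((x : ℝ) + ω.1) ^ al n k with hU
    have hx1' : (1:ℝ) ≤ x := by exact_mod_cast hx1
    have hU1 : 1 ≤ U := Real.one_le_rpow (by linarith) (by linarith [al_gt hk])
    set z := round (U - ω.2) with hz
    have h6 := abs_le.1 hi
    have h7 : 0 ≤ z := by
      by_contra hcon
      push Not at hcon
      have h8 : z ≤ -1 := by omega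
      have h9 : (z : ℝ) ≤ -1 := by exact_mod_cast h8
      linarith [h6.2]
    obtain ⟨y, hy⟩ := Int.eq_ofNat_of_zero_le h7
    have hzy : (z : ℝ) = y := by rw [hy]; simp
    have hmem : y ∈ Sol (n + 1) k ψ x ω := by
      change |((y : ℝ) + ω.2) ^ (n + 1) - ((x : ℝ) + ω.1) ^ k| ≤ ψ x
      rw [← al_pow n k (show 0 ≤ (x : ℝ) + ω.1 by positivity)]
      apply h.2.1 ω.1 ((y : ℝ) + ω.2) (ψ x) h2 h3 (by positivity) (hψ0 x) h.psi_le
      rw [hzy] at hi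
      rw [abs_sub_comm]
      rw [show U - ((y : ℝ) + ω.2) = U - ω.2 - y by ring]
      exact hi
    have h8 : 0 < (Sol (n + 1) k ψ x ω).ncard :=
      (Set.ncard_pos (Sol_finite n k ψ x h2 h4)).2 ⟨y, hmem⟩
    exact_mod_cast h8
  · positivity

end good

lemma PP_mem : ∀ᵐ ω ∂PP, ω ∈ Set.Icc (0:ℝ) 1 ×ˢ Set.Icc (0:ℝ) 1 := by
  unfold PP
  rw [Measure.prod_restrict]
  exact ae_restrict_mem (measurableSet_Icc.prod measurableSet_Icc)

lemma tr_dec {n k : ℕ} {ψ : ℕ → ℝ} {ρ ε c : ℝ} (hψ0 : ∀ x, 0 ≤ ψ x)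
    (hρ : bet (al n k) < ρ) {x0 : ℕ} (hgood : ∀ x, x0 ≤ x → Good n k ψ ρ ε x)
    (hc : 0 ≤ c) (hc2 : c ≤ 2) :
    Dec (al n k) (tr x0 c (del n k ψ)) (ρ - bet (al n k)) 2 := by
  refine ⟨?_, ?_, by linarith, by norm_num, ?_⟩
  · intro x
    unfold tr
    split_ifs
    · exact mul_nonneg hc (del_nonneg hψ0 x)
    · exact le_rfl
  · intro x
    unfold tr
    split_ifs with h
    · have h1 := (hgood x h).del_le
      have h2 := (hgood x h).2.2.2.1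
      have h3 := del_nonneg (n := n) (k := k) hψ0 x
      nlinarith
    · norm_num
  · intro x hx
    rw [show bet (al n k) + (ρ - bet (al n k)) = ρ by ring]
    unfold tr
    split_ifs with h
    · have h1 := (hgood x h).del_le
      have h3 := del_nonneg (n := n) (k := k) hψ0 x
      nlinarith
    · positivity

lemma tr_not_summable {δ : ℕ → ℝ} {c : ℝ} (hc : c ≠ 0) (x0 : ℕ) (h : ¬ Summable δ) :
    ¬ Summable (tr x0 c δ) := by
  intro hs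
  apply h
  rw [← summable_nat_add_iff x0] at hs ⊢
  refine (hs.mul_left c⁻¹).congr fun x => ?_
  rw [tr_of_ge c δ (by omega), inv_mul_cancel_left₀ hc]

theorem count_law {n k : ℕ} (hk : n + 1 < k) {ψ : ℕ → ℝ} (hψ0 : ∀ x, 0 ≤ ψ x) {ρ : ℝ}
    (hρ : bet (al n k) < ρ)
    (hψ : ∀ᶠ x : ℕ in atTop, ψ x ≤ ((x : ℝ) ^ al n k) ^ n * (x : ℝ) ^ (-ρ))
    (hns : ¬ Summable (del n k ψ)) :
    ∀ᵐ ω ∂PP, Tendsto (fun N => (∑ x ∈ range N, ((Sol (n + 1) k ψ (x + 1) ω).ncard : ℝ))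
      / ∑ x ∈ range N, 2 * del n k ψ (x + 1)) atTop (𝓝 1) := by
  have hρ0 : 0 < ρ := lt_of_le_of_lt (bet_nonneg _) hρ
  have hε : ∀ j : ℕ, 0 < 1 / ((j : ℝ) + 2) := fun j => by positivity
  have hε1 : ∀ j : ℕ, 1 / ((j : ℝ) + 2) < 1 := fun j => by
    rw [div_lt_one (by positivity)]
    have : (0:ℝ) ≤ j := by positivity
    linarith
  have hx0 : ∀ j : ℕ, ∃ x0 : ℕ, ∀ x, x0 ≤ x → Good n k ψ ρ (1 / ((j : ℝ) + 2)) x := fun j =>
    eventually_atTop.1 (good_eventually hk hρ0 hψ (hε j) (hε1 j))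
  choose x0 hgood using hx0
  have hup : ∀ᵐ ω ∂PP, ∀ j : ℕ, Tendsto (fun N => (∑ x ∈ range N,
      ff (al n k) (tr (x0 j) (1 + 1 / ((j : ℝ) + 2)) (del n k ψ)) (x + 1) ω)
      / ∑ x ∈ range N, 2 * tr (x0 j) (1 + 1 / ((j : ℝ) + 2)) (del n k ψ) (x + 1))
        atTop (𝓝 1) := by
    rw [ae_all_iff]
    intro j
    exact law (al_gt hk) (tr_dec hψ0 hρ (hgood j) (by linarith [hε j]) (by linarith [hε1 j]))
      (tr_not_summable (by linarith [hε j]) _ hns)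
  have hlow : ∀ᵐ ω ∂PP, ∀ j : ℕ, Tendsto (fun N => (∑ x ∈ range N,
      ff (al n k) (tr (x0 j) (1 - 1 / ((j : ℝ) + 2)) (del n k ψ)) (x + 1) ω)
      / ∑ x ∈ range N, 2 * tr (x0 j) (1 - 1 / ((j : ℝ) + 2)) (del n k ψ) (x + 1))
        atTop (𝓝 1) := by
    rw [ae_all_iff]
    intro j
    exact law (al_gt hk) (tr_dec hψ0 hρ (hgood j) (by linarith [hε1 j]) (by linarith [hε j]))
      (tr_not_summable (by linarith [hε1 j]) _ hns)
  have hinf : Tendsto (fun N => ∑ x ∈ range N, 2 * del n k ψ (x + 1)) atTop atTop := by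
    apply (not_summable_iff_tendsto_nat_atTop_of_nonneg
      (fun x => by linarith [del_nonneg (n := n) (k := k) hψ0 (x + 1)])).1
    intro hs
    apply hns
    rw [← summable_nat_add_iff 1]
    exact (hs.mul_left (1 / 2)).congr fun x => by ring
  have hR : ∀ (j : ℕ) (c : ℝ), Tendsto (fun N => (∑ x ∈ range N,
      2 * tr (x0 j) c (del n k ψ) (x + 1)) / ∑ x ∈ range N, 2 * del n k ψ (x + 1))
      atTop (𝓝 c) := by
    intro j c
    apply ratio_lim (p := fun x => 2 * del n k ψ x)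
      (q := fun x => 2 * tr (x0 j) c (del n k ψ) x) (x0 := x0 j) _ hinf
    intro x hx
    rw [tr_of_ge c _ hx]
    ring
  filter_upwards [hup, hlow, PP_mem] with ω h1 h2 hω
  obtain ⟨⟨hω1, hω2⟩, hω3, hω4⟩ := id hω
  apply squeeze_eps
  intro j
  set ε := 1 / ((j : ℝ) + 2) with hεdef
  set A : ℕ → ℝ := fun x => ((Sol (n + 1) k ψ x ω).ncard : ℝ) with hA
  set Fp : ℕ → ℝ := fun x => ff (al n k) (tr (x0 j) (1 + ε) (del n k ψ)) x ω with hFp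
  set Fm : ℕ → ℝ := fun x => ff (al n k) (tr (x0 j) (1 - ε) (del n k ψ)) x ω with hFm
  set Ψ : ℕ → ℝ := fun N => ∑ x ∈ range N, 2 * del n k ψ (x + 1) with hΨ
  have hA0 : ∀ x, 0 ≤ A x := fun x => by rw [hA]; positivity
  have hFp0 : ∀ x, 0 ≤ Fp x := fun x => ff_nonneg _ _ _ _
  have hFm0 : ∀ x, 0 ≤ Fm x := fun x => ff_nonneg _ _ _ _
  have hcu : ∀ x, x0 j ≤ x → A x ≤ Fp x := by
    intro x hx
    have := (hgood j x hx).upper hψ0 (hε1 j) hω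
    rw [hFp]
    unfold ff
    dsimp only
    rw [tr_of_ge _ _ hx]
    exact this
  have hcl : ∀ x, x0 j ≤ x → Fm x ≤ A x := by
    intro x hx
    have := (hgood j x hx).lower hψ0 (hε j) (hε1 j) hω hk
    rw [hFm]
    unfold ff
    dsimp only
    rw [tr_of_ge _ _ hx]
    exact this
  have hlimK : ∀ K : ℝ, Tendsto (fun N => K / Ψ N) atTop (𝓝 0) := fun K =>
    (tendsto_const_nhds (x := K)).div_atTop hinf
  have hc0 : ∀ᶠ N in atTop, 0 < Ψ N := hinf.eventually (eventually_gt_atTop 0)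
  have hlim : ∀ (c : ℝ) (F : ℕ → ℝ), 0 < c → Tendsto (fun N => (∑ x ∈ range N, F (x + 1))
      / ∑ x ∈ range N, 2 * tr (x0 j) c (del n k ψ) (x + 1)) atTop (𝓝 1) →
      Tendsto (fun N => (∑ x ∈ range N, F (x + 1)) / Ψ N) atTop (𝓝 c) := by
    intro c F hc hF
    have e1 := hF.mul (hR j c)
    rw [one_mul] at e1
    refine e1.congr' ?_
    have e2 := (hR j c).eventually (lt_mem_nhds hc)
    filter_upwards [e2] with N hN
    have hne : ∑ x ∈ range N, 2 * tr (x0 j) c (del n k ψ) (x + 1) ≠ 0 := by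
      intro h0
      rw [h0, zero_div] at hN
      exact lt_irrefl _ hN
    rw [div_mul_div_cancel₀ hne]
  have hu := hlim (1 + ε) Fp (by linarith [hε j]) (h1 j)
  have hl := hlim (1 - ε) Fm (by linarith [hε1 j]) (h2 j)
  refine ⟨fun N => (∑ x ∈ range N, Fp (x + 1)) / Ψ N
      + (∑ x ∈ range (x0 j), A (x + 1)) / Ψ N,
    fun N => (∑ x ∈ range N, Fm (x + 1)) / Ψ N
      - (∑ x ∈ range (x0 j), Fm (x + 1)) / Ψ N, ?_, ?_, ?_⟩
  · simpa using hu.add (hlimK _)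
  · simpa using hl.sub (hlimK _)
  · filter_upwards [hc0] with N hN
    constructor
    · rw [← sub_div]
      apply div_le_div_of_nonneg_right _ hN.le
      have := sum_cmp hFm0 hA0 hcl N
      linarith
    · rw [← add_div]
      apply div_le_div_of_nonneg_right _ hN.le
      exact sum_cmp hA0 hFp0 hcu N

theorem count_conv {n k : ℕ} (hk : n + 1 < k) {ψ : ℕ → ℝ} (hψ0 : ∀ x, 0 ≤ ψ x) {ρ : ℝ}
    (hρ : 0 < ρ)
    (hψ : ∀ᶠ x : ℕ in atTop, ψ x ≤ ((x : ℝ) ^ al n k) ^ n * (x : ℝ) ^ (-ρ))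
    (hs : Summable (del n k ψ)) :
    ∀ᵐ ω ∂PP, ∀ᶠ x in atTop, Sol (n + 1) k ψ x ω = ∅ := by
  obtain ⟨x0, hgood⟩ := eventually_atTop.1
    (good_eventually hk hρ hψ (show (0:ℝ) < 1 / 2 by norm_num) (by norm_num))
  have hs2 : Summable (tr x0 (1 + 1 / 2) (del n k ψ)) := by
    rw [← summable_nat_add_iff x0] at hs ⊢
    refine (hs.mul_left (1 + 1 / 2)).congr fun x => ?_
    rw [tr_of_ge _ _ (by omega)]
  have h1 := law_conv (α := al n k) (δ := tr x0 (1 + 1 / 2) (del n k ψ)) ?_ ?_ hs2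
  · filter_upwards [h1, PP_mem] with ω h2 hω
    obtain ⟨⟨hω1, hω2⟩, hω3, hω4⟩ := id hω
    filter_upwards [h2.tendsto_atTop_zero.eventually (gt_mem_nhds one_pos),
      eventually_ge_atTop x0] with x hx hx0
    have h3 := (hgood x hx0).upper hψ0 (by norm_num) hω
    unfold ff at hx
    rw [tr_of_ge _ _ hx0] at hx
    have h4 := lt_of_le_of_lt h3 hx
    have h5 : (Sol (n + 1) k ψ x ω).ncard < 1 := by exact_mod_cast h4
    have h6 : (Sol (n + 1) k ψ x ω).ncard = 0 := by omega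
    exact (Set.ncard_eq_zero (Sol_finite n k ψ x hω1 hω3)).1 h6
  · intro x
    unfold tr
    split_ifs
    · exact mul_nonneg (by norm_num) (del_nonneg hψ0 x)
    · exact le_rfl
  · intro x
    unfold tr
    split_ifs with h
    · have h1 := (hgood x h).del_le
      have h2 := (hgood x h).2.2.2.1
      have h3 := del_nonneg (n := n) (k := k) hψ0 x
      linarith
    · norm_num

end Pool.Agent.X100.HT
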