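import Pool.Agent.X100.HT.Circ

/-! Differences of powers and the correlation of two arcs at distance `h`. -/

namespace Pool.Agent.X100.HT

open MeasureTheory Pool.Agent.X100.WS

/-- The exponent loss. -/
noncomputable def bet (α : ℝ) : ℝ := max 0 (2 - α)

lemma bet_nonneg (α : ℝ) : 0 ≤ bet α := le_max_left _ _

lemma der_lower {α z h : ℝ} (hα : 1 < α) (hz : 1 ≤ z) (hh : 0 < h) :
    α * (α - 1) * h * (z + h) ^ (-bet α) ≤ α * (z + h) ^ (α - 1) - α * z ^ (α - 1) := by
  have hz0 : 0 < z := by linarith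
  obtain ⟨ξ, hξ, hξ2⟩ := exists_hasDerivAt_eq_slope (fun y : ℝ => y ^ (α - 1))
    (fun y : ℝ => (α - 1) * y ^ (α - 1 - 1)) (show z < z + h by linarith)
    (fun y hy => (Real.hasDerivAt_rpow_const (Or.inl (by
      have := hy.1; exact (by linarith : (0:ℝ) < y).ne'))).continuousAt.continuousWithinAt)
    (fun y hy => Real.hasDerivAt_rpow_const (Or.inl (by
      have := hy.1; exact (by linarith : (0:ℝ) < y).ne')))
  have hξ0 : 0 < ξ := by linarith [hξ.1]
  have h1 : (z + h) ^ (α - 1) - z ^ (α - 1) = (α - 1) * ξ ^ (α - 1 - 1) * h := by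
    rw [hξ2, add_sub_cancel_left]
    field_simp
  have h2 : (z + h) ^ (-bet α) ≤ ξ ^ (α - 1 - 1) := by
    unfold bet
    rcases le_total α 2 with h3 | h3
    · rw [max_eq_right (by linarith), show -(2 - α) = α - 1 - 1 by ring]
      exact Real.rpow_le_rpow_of_nonpos hξ0 hξ.2.le (by linarith)
    · rw [max_eq_left (by linarith), neg_zero, Real.rpow_zero]
      exact Real.one_le_rpow (by linarith [hξ.1]) (by linarith)
  have h4 : 0 < α * (α - 1) * h := by
    have : 0 < α - 1 := by linarith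
    positivity
  calc α * (α - 1) * h * (z + h) ^ (-bet α) ≤ α * (α - 1) * h * ξ ^ (α - 1 - 1) :=
        mul_le_mul_of_nonneg_left h2 h4.le
    _ = α * ((z + h) ^ (α - 1) - z ^ (α - 1)) := by rw [h1]; ring
    _ = _ := by ring

/-- The reciprocal of the derivative of the difference. -/
noncomputable def RR (α x h : ℝ) : ℝ := (x + 1 + h) ^ bet α / (α * (α - 1) * h)

lemma pair_int {α d e x h : ℝ} (hα : 1 < α) (hd : 0 ≤ d) (hd1 : d ≤ 1 / 4) (he : 0 ≤ e)
    (he1 : e ≤ 1 / 4) (hx : 1 ≤ x) (hh : 0 < h) :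
    ∫ s in (0:ℝ)..1, J d e ((x + s) ^ α - (x + h + s) ^ α)
      ≤ 4 * d * e * (1 + 4 * RR α x h) := by
  have hα1 : 0 < α - 1 := by linarith
  have hα0 : 0 < α := by linarith
  set φ : ℝ → ℝ := fun w => J d e (-w) with hφdef
  have hφ : Continuous φ := (J_continuous hd hd1 e).comp continuous_neg
  have hφp : Function.Periodic φ 1 := fun w => by
    rw [hφdef]
    dsimp only
    rw [show -(w + 1) = -w - 1 by ring, (J_periodic d e).sub_eq]
  have hφ0 : ∀ z, 0 ≤ φ z := fun z => J_nonneg _ _ _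
  have hφm : ∫ z in (0:ℝ)..1, φ z = 4 * d * e := by
    have := periodic_shift (J_periodic d e) 0
    simp only [zero_sub] at this
    rw [hφdef]
    dsimp only
    rw [this, J_integral hd (by linarith) he (by linarith)]
    ring
  set g : ℝ → ℝ := fun z => (z + h) ^ α - z ^ α with hg
  set g1 : ℝ → ℝ := fun z => α * (z + h) ^ (α - 1) - α * z ^ (α - 1) with hg1
  set g2 : ℝ → ℝ := fun z => α * ((α - 1) * (z + h) ^ (α - 1 - 1))
    - α * ((α - 1) * z ^ (α - 1 - 1)) with hg2
  have hpos : ∀ z ∈ Set.Icc x (x + 1), 0 < z := fun z hz => by linarith [hz.1]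
  have hgd : ∀ z ∈ Set.Icc x (x + 1), HasDerivAt g (g1 z) z := by
    intro z hz
    have h1 := hpos z hz
    exact ((Real.hasDerivAt_rpow_const (Or.inl (by linarith : (0:ℝ) < z + h).ne')).comp_add_const
      z h).sub (Real.hasDerivAt_rpow_const (Or.inl h1.ne'))
  have hg1d : ∀ z ∈ Set.Icc x (x + 1), HasDerivAt g1 (g2 z) z := by
    intro z hz
    have h1 := hpos z hz
    exact (((Real.hasDerivAt_rpow_const (Or.inl
      (by linarith : (0:ℝ) < z + h).ne')).comp_add_const z h).const_mul α).sub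
      ((Real.hasDerivAt_rpow_const (Or.inl h1.ne')).const_mul α)
  have hlow : ∀ z ∈ Set.Icc x (x + 1), α * (α - 1) * h * (x + 1 + h) ^ (-bet α) ≤ g1 z := by
    intro z hz
    refine le_trans ?_ (der_lower hα (hx.trans hz.1) hh)
    apply mul_le_mul_of_nonneg_left _ (by positivity)
    exact Real.rpow_le_rpow_of_nonpos (by linarith [hpos z hz])
      (by linarith [hz.2]) (by linarith [bet_nonneg α])
  have hlow0 : 0 < α * (α - 1) * h * (x + 1 + h) ^ (-bet α) := by positivity
  have hg1p : ∀ z ∈ Set.Icc x (x + 1), 0 < g1 z := fun z hz => lt_of_lt_of_le hlow0 (hlow z hz)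
  have hmain := ibp hφ hφp hφ0 hφm (a := x) (b := x + 1) (R := RR α x h) (by linarith)
    (g := g) (g1 := g1) (r := fun z => (g1 z)⁻¹) (r1 := fun z => -(g2 z) / (g1 z) ^ 2)
    hgd (fun z hz => (hg1d z hz).inv (hg1p z hz).ne')
    (fun z hz => mul_inv_cancel₀ (hg1p z hz).ne') ?_ ?_ ?_
  · have h1 : ∫ s in (0:ℝ)..1, J d e ((x + s) ^ α - (x + h + s) ^ α)
        = ∫ s in (0:ℝ)..1, φ (g (x + s)) := by
      congr 1
      ext s
      rw [hφdef, hg]
      dsimp only
      congr 1
      rw [show x + h + s = x + s + h by ring]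
      ring
    rw [h1, intervalIntegral.integral_comp_add_left (fun z => φ (g z)) x, add_zero]
    refine hmain.trans (le_of_eq ?_)
    ring
  · rcases le_total α 2 with h3 | h3
    · right
      intro z hz
      apply div_nonneg _ (by positivity)
      have h4 : (z + h) ^ (α - 1 - 1) ≤ z ^ (α - 1 - 1) :=
        Real.rpow_le_rpow_of_nonpos (hpos z hz) (by linarith) (by linarith)
      have h5 : 0 < α * (α - 1) := by positivity
      rw [hg2]
      dsimp only
      nlinarith
    · left
      intro z hz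
      apply div_nonpos_of_nonpos_of_nonneg _ (by positivity)
      have h4 : z ^ (α - 1 - 1) ≤ (z + h) ^ (α - 1 - 1) :=
        Real.rpow_le_rpow (hpos z hz).le (by linarith) (by linarith)
      have h5 : 0 < α * (α - 1) := by positivity
      rw [hg2]
      dsimp only
      nlinarith
  · intro z hz
    rw [abs_of_pos (inv_pos.2 (hg1p z hz))]
    unfold RR
    rw [inv_le_comm₀ (hg1p z hz) (by positivity), inv_div]
    refine le_trans (le_of_eq ?_) (hlow z hz)
    rw [Real.rpow_neg (by linarith)]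
    rfl
  · have hc1 : ContinuousOn g1 (Set.Icc x (x + 1)) :=
      fun z hz => (hg1d z hz).continuousAt.continuousWithinAt
    have hc2 : ContinuousOn g2 (Set.Icc x (x + 1)) := by
      have e1 : ContinuousOn (fun z : ℝ => (z + h) ^ (α - 1 - 1)) (Set.Icc x (x + 1)) :=
        ContinuousOn.rpow_const (by fun_prop) fun z hz =>
          Or.inl (by linarith [hpos z hz] : (0:ℝ) < z + h).ne'
      have e2 : ContinuousOn (fun z : ℝ => z ^ (α - 1 - 1)) (Set.Icc x (x + 1)) :=
        ContinuousOn.rpow_const (by fun_prop) fun z hz => Or.inl (hpos z hz).ne'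
      exact ((e1.const_smul (α - 1)).const_smul α).sub ((e2.const_smul (α - 1)).const_smul α)
    exact hc2.neg.div (hc1.pow 2) fun z hz => (pow_pos (hg1p z hz) 2).ne'

end Pool.Agent.X100.HT
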