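import Pool.Agent.X100.HT.Count

/-! Counting pairs; the reflection; the case of Hall's inequality. -/

namespace Pool.Agent.X100.HT

open Finset MeasureTheory Filter Topology Pool.Agent.X100.WS

section card

variable {β : Type*}

lemma pairs_finite (f : ℕ → Set β) (hf : ∀ x, (f x).Finite) (N : ℕ) :
    {q : ℕ × β | 1 ≤ q.1 ∧ q.1 ≤ N ∧ q.2 ∈ f q.1}.Finite := by
  have h1 : {q : ℕ × β | 1 ≤ q.1 ∧ q.1 ≤ N ∧ q.2 ∈ f q.1}
      ⊆ ⋃ x ∈ Set.Iic N, (fun y => (x, y)) '' f x := by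
    rintro ⟨x, y⟩ ⟨_, h2, h3⟩
    simp only [Set.mem_iUnion]
    exact ⟨x, h2, y, h3, rfl⟩
  exact ((Set.finite_Iic N).biUnion fun x _ => (hf x).image _).subset h1

lemma pairs_card (f : ℕ → Set β) (hf : ∀ x, (f x).Finite) (N : ℕ) :
    {q : ℕ × β | 1 ≤ q.1 ∧ q.1 ≤ N ∧ q.2 ∈ f q.1}.ncard = ∑ x ∈ range N, (f (x + 1)).ncard := by
  induction N with
  | zero =>
    rw [range_zero, sum_empty]
    have : {q : ℕ × β | 1 ≤ q.1 ∧ q.1 ≤ 0 ∧ q.2 ∈ f q.1} = ∅ := by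
      ext q
      simp only [Set.mem_ofPred_eq, Set.mem_empty_iff_false, iff_false]
      rintro ⟨h1, h2, -⟩
      omega
    rw [this, Set.ncard_empty]
  | succ N ih =>
    have h1 : {q : ℕ × β | 1 ≤ q.1 ∧ q.1 ≤ N + 1 ∧ q.2 ∈ f q.1}
        = {q : ℕ × β | 1 ≤ q.1 ∧ q.1 ≤ N ∧ q.2 ∈ f q.1} ∪ (fun y => (N + 1, y)) '' f (N + 1) := by
      ext ⟨x, y⟩
      simp only [Set.mem_ofPred_eq, Set.mem_union, Set.mem_image, Prod.mk.injEq]
      constructor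
      · rintro ⟨h1, h2, h3⟩
        rcases Nat.lt_or_ge N x with h4 | h4
        · right
          have : x = N + 1 := by omega
          subst this
          exact ⟨y, h3, rfl, rfl⟩
        · left
          exact ⟨h1, h4, h3⟩
      · rintro (⟨h1, h2, h3⟩ | ⟨z, hz, h1, h2⟩)
        · exact ⟨h1, by omega, h3⟩
        · subst h1; subst h2
          exact ⟨by omega, le_rfl, hz⟩
    rw [h1, Set.ncard_union_eq _ (pairs_finite f hf N) ((hf (N + 1)).image _), ih,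
      sum_range_succ, Set.ncard_image_of_injective]
    · intro a b hab
      simpa using hab
    · rw [Set.disjoint_left]
      rintro ⟨x, y⟩ ⟨_, h2, _⟩ ⟨z, _, hz2⟩
      simp only [Prod.mk.injEq] at hz2
      have h2' : x ≤ N := h2
      omega

lemma all_finite (f : ℕ → Set β) (hf : ∀ x, (f x).Finite) (h : ∀ᶠ x in atTop, f x = ∅) :
    {q : ℕ × β | 1 ≤ q.1 ∧ q.2 ∈ f q.1}.Finite := by
  obtain ⟨N, hN⟩ := eventually_atTop.1 h
  apply (pairs_finite f hf N).subset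
  rintro ⟨x, y⟩ ⟨h1, h2⟩
  refine ⟨h1, ?_, h2⟩
  by_contra hcon
  push Not at hcon
  have h3 : y ∈ f x := h2
  rw [hN x hcon.le] at h3
  exact h3

end card

lemma flip {G : ℝ × ℝ → Prop} (h : ∀ᵐ ω ∂PP, G ω) : ∀ᵐ ω ∂PP, G (ω.1, 1 - ω.2) := by
  have h1 : MeasurePreserving (fun t : ℝ => 1 - t) (volume.restrict (Set.Icc (0:ℝ) 1))
      (volume.restrict (Set.Icc (0:ℝ) 1)) := by
    have h2 := (Measure.measurePreserving_sub_left volume (1:ℝ)).restrict_preimage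
      (measurableSet_Icc (a := (0:ℝ)) (b := 1))
    have h3 : (fun t : ℝ => 1 - t) ⁻¹' (Set.Icc (0:ℝ) 1) = Set.Icc 0 1 := by
      ext t
      simp only [Set.mem_preimage, Set.mem_Icc]
      constructor <;> rintro ⟨h1, h2⟩ <;> constructor <;> linarith
    rwa [h3] at h2
  have h2 := (MeasurePreserving.id (volume.restrict (Set.Icc (0:ℝ) 1))).prod h1
  exact h2.quasiMeasurePreserving.ae h

lemma PP_eq : PP = volume.restrict (Set.Icc (0:ℝ) 1 ×ˢ Set.Icc (0:ℝ) 1) := by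
  unfold PP
  rw [Measure.prod_restrict, Measure.volume_eq_prod]

/-- The integers `y` belonging to `x` in Hall's inequality. -/
def SolZ (ψ : ℕ → ℝ) (x : ℕ) (ω : ℝ × ℝ) : Set ℤ :=
  {y : ℤ | |((y : ℝ) + ω.2) ^ 2 - ((x : ℝ) + ω.1) ^ 3| ≤ ψ x}

lemma SolZ_eq (ψ : ℕ → ℝ) (x : ℕ) (ω : ℝ × ℝ) :
    SolZ ψ x ω = (fun y : ℕ => (y : ℤ)) '' Sol 2 3 ψ x ω
      ∪ (fun y : ℕ => -(y : ℤ) - 1) '' Sol 2 3 ψ x (ω.1, 1 - ω.2) := by
  ext y
  simp only [Set.mem_union, Set.mem_image]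
  constructor
  · intro hy
    rcases le_or_gt 0 y with h | h
    · left
      obtain ⟨z, rfl⟩ := Int.eq_ofNat_of_zero_le h
      refine ⟨z, ?_, rfl⟩
      have h1 : |(((z : ℤ) : ℝ) + ω.2) ^ 2 - ((x : ℝ) + ω.1) ^ 3| ≤ ψ x := hy
      change |((z : ℝ) + ω.2) ^ 2 - ((x : ℝ) + ω.1) ^ 3| ≤ ψ x
      rwa [Int.cast_natCast] at h1
    · right
      obtain ⟨z, hz⟩ := Int.eq_ofNat_of_zero_le (show 0 ≤ -y - 1 by omega)
      refine ⟨z, ?_, by omega⟩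
      have h1 : |((y : ℝ) + ω.2) ^ 2 - ((x : ℝ) + ω.1) ^ 3| ≤ ψ x := hy
      change |((z : ℝ) + (1 - ω.2)) ^ 2 - ((x : ℝ) + ω.1) ^ 3| ≤ ψ x
      have h2 : (y : ℝ) = -(z : ℝ) - 1 := by
        have : y = -(z : ℤ) - 1 := by omega
        rw [this]; push_cast; ring
      rw [h2] at h1
      rwa [show ((z : ℝ) + (1 - ω.2)) ^ 2 = (-(z : ℝ) - 1 + ω.2) ^ 2 by ring]
  · rintro (⟨z, hz, rfl⟩ | ⟨z, hz, rfl⟩)
    · have h1 : |((z : ℝ) + ω.2) ^ 2 - ((x : ℝ) + ω.1) ^ 3| ≤ ψ x := hz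
      change |(((z : ℤ) : ℝ) + ω.2) ^ 2 - ((x : ℝ) + ω.1) ^ 3| ≤ ψ x
      rwa [Int.cast_natCast]
    · have h1 : |((z : ℝ) + (1 - ω.2)) ^ 2 - ((x : ℝ) + ω.1) ^ 3| ≤ ψ x := hz
      change |(((-(z : ℤ) - 1 : ℤ) : ℝ) + ω.2) ^ 2 - ((x : ℝ) + ω.1) ^ 3| ≤ ψ x
      push_cast
      rwa [show (-(z : ℝ) - 1 + ω.2) ^ 2 = ((z : ℝ) + (1 - ω.2)) ^ 2 by ring]

lemma SolZ_finite (ψ : ℕ → ℝ) (x : ℕ) {ω : ℝ × ℝ}
    (hω : ω ∈ Set.Icc (0:ℝ) 1 ×ˢ Set.Icc (0:ℝ) 1) : (SolZ ψ x ω).Finite := by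
  obtain ⟨⟨h1, h2⟩, h3, h4⟩ := hω
  rw [SolZ_eq]
  exact ((Sol_finite 1 3 ψ x h1 h3).image _).union
    ((Sol_finite 1 3 ψ x (ω := (ω.1, 1 - ω.2)) h1 (by dsimp only; linarith)).image _)

lemma SolZ_ncard (ψ : ℕ → ℝ) (x : ℕ) {ω : ℝ × ℝ}
    (hω : ω ∈ Set.Icc (0:ℝ) 1 ×ˢ Set.Icc (0:ℝ) 1) :
    (SolZ ψ x ω).ncard = (Sol 2 3 ψ x ω).ncard + (Sol 2 3 ψ x (ω.1, 1 - ω.2)).ncard := by
  obtain ⟨⟨h1, h2⟩, h3, h4⟩ := hω
  rw [SolZ_eq, Set.ncard_union_eq _ ((Sol_finite 1 3 ψ x h1 h3).image _)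
    ((Sol_finite 1 3 ψ x (ω := (ω.1, 1 - ω.2)) h1 (by dsimp only; linarith)).image _),
    Set.ncard_image_of_injective, Set.ncard_image_of_injective]
  · intro a b hab
    dsimp only at hab
    omega
  · intro a b hab
    dsimp only at hab
    omega
  · rw [Set.disjoint_left]
    rintro _ ⟨a, _, rfl⟩ ⟨b, _, hb⟩
    dsimp only at hb
    omega

lemma al_hall : al 1 3 = 3 / 2 := by unfold al; norm_num

lemma bet_hall : bet (al 1 3) = 1 / 2 := by rw [al_hall]; unfold bet; norm_num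

lemma del_hall (ψ : ℕ → ℝ) (x : ℕ) : del 1 3 ψ x = ψ x / (2 * (x : ℝ) ^ (3 / 2 : ℝ)) := by
  unfold del
  rw [al_hall]
  norm_num

lemma log_harm : Tendsto (fun N : ℕ => (∑ x ∈ range N, 1 / ((x : ℝ) + 1)) / Real.log N)
    atTop (𝓝 1) := by
  have hlog : Tendsto (fun N : ℕ => Real.log N) atTop atTop :=
    Real.tendsto_log_atTop.comp tendsto_natCast_atTop_atTop
  have h1 := Real.tendsto_harmonic_sub_log.div_atTop hlog
  have h2 := h1.add_const 1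
  rw [zero_add] at h2
  refine h2.congr' ?_
  filter_upwards [hlog.eventually (eventually_gt_atTop 0)] with N hN
  have h3 : ((harmonic N : ℚ) : ℝ) = ∑ x ∈ range N, 1 / ((x : ℝ) + 1) := by
    unfold harmonic
    push_cast
    apply sum_congr rfl
    intro x _
    rw [one_div]
  rw [← h3]
  field_simp
  ring

/-- One branch, one constant. -/
lemma hall_one {c : ℝ} (hc : 0 < c) : ∀ᵐ ω ∂PP,
    Tendsto (fun N : ℕ => (∑ x ∈ range N,
      ((Sol 2 3 (fun x => c * Real.sqrt x) (x + 1) ω).ncard : ℝ)) / Real.log N) atTop (𝓝 c) := by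
  set ψ : ℕ → ℝ := fun x => c * Real.sqrt x with hψdef
  have hdel : ∀ x : ℕ, 1 ≤ x → del 1 3 ψ x = c / 2 * (1 / (x : ℝ)) := by
    intro x hx
    have hx0 : (0:ℝ) < x := by exact_mod_cast hx
    rw [del_hall, hψdef]
    dsimp only
    rw [Real.sqrt_eq_rpow, show (3 / 2 : ℝ) = 1 / 2 + 1 by norm_num, Real.rpow_add hx0,
      Real.rpow_one]
    have : (x : ℝ) ^ (1 / 2 : ℝ) ≠ 0 := by positivity
    field_simp
  have h1 : (1 : ℕ) + 1 < 3 := by norm_num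
  have hlaw := count_law (n := 1) (k := 3) h1 (ψ := ψ) (fun x => by rw [hψdef]; positivity)
    (ρ := 3 / 4) (by rw [bet_hall]; norm_num) ?_ ?_
  · filter_upwards [hlaw] with ω hω
    have e1 := (hω.mul log_harm).mul_const c
    rw [one_mul, one_mul] at e1
    refine e1.congr' ?_
    filter_upwards [eventually_ge_atTop 1] with N hN
    have e2 : ∑ x ∈ range N, 2 * del 1 3 ψ (x + 1) = c * ∑ x ∈ range N, 1 / ((x : ℝ) + 1) := by
      rw [mul_sum]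
      apply sum_congr rfl
      intro x _
      rw [hdel (x + 1) (by omega)]
      push_cast
      ring
    rw [e2]
    have e3 : 0 < ∑ x ∈ range N, 1 / ((x : ℝ) + 1) := by
      apply sum_pos (fun x _ => by positivity)
      exact ⟨0, mem_range.2 hN⟩
    field_simp
  · have h2 : ∀ᶠ x : ℕ in atTop, c ≤ (x : ℝ) ^ (1 / 4 : ℝ) :=
      (rpow_tendsto (by norm_num)).eventually (eventually_ge_atTop c)
    filter_upwards [h2, eventually_ge_atTop 1] with x hx hx1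
    have hx0 : (0:ℝ) < x := by exact_mod_cast hx1
    rw [al_hall, hψdef, pow_one, ← Real.rpow_add hx0]
    dsimp only
    rw [Real.sqrt_eq_rpow]
    calc c * (x : ℝ) ^ (1 / 2 : ℝ) ≤ (x : ℝ) ^ (1 / 4 : ℝ) * (x : ℝ) ^ (1 / 2 : ℝ) :=
          mul_le_mul_of_nonneg_right hx (by positivity)
      _ = _ := by
        rw [← Real.rpow_add hx0]
        congr 1
        norm_num
  · intro hs
    have h2 : Summable fun x : ℕ => (1 / (x : ℝ)) := by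
      rw [← summable_nat_add_iff 1] at hs ⊢
      refine (hs.mul_left (2 / c)).congr fun x => ?_
      rw [hdel (x + 1) (by omega)]
      field_simp
    exact Real.not_summable_one_div_natCast h2

/-- Both branches, one constant. -/
lemma hall_two {c : ℝ} (hc : 0 < c) : ∀ᵐ ω ∂PP,
    Tendsto (fun N : ℕ => (({q : ℕ × ℤ | 1 ≤ q.1 ∧ q.1 ≤ N ∧
      |((q.2 : ℝ) + ω.2) ^ 2 - ((q.1 : ℝ) + ω.1) ^ 3| ≤ c * Real.sqrt q.1}.ncard : ℝ)
        / Real.log N)) atTop (𝓝 (2 * c)) := by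
  filter_upwards [hall_one hc, flip (hall_one hc), PP_mem] with ω h1 h2 hω
  have h3 := h1.add h2
  rw [← two_mul] at h3
  refine h3.congr fun N => ?_
  rw [← add_div]
  congr 1
  have h4 := pairs_card (fun x => SolZ (fun x => c * Real.sqrt x) x ω)
    (fun x => SolZ_finite _ x hω) N
  have h5 : {q : ℕ × ℤ | 1 ≤ q.1 ∧ q.1 ≤ N ∧
      |((q.2 : ℝ) + ω.2) ^ 2 - ((q.1 : ℝ) + ω.1) ^ 3| ≤ c * Real.sqrt q.1}
      = {q : ℕ × ℤ | 1 ≤ q.1 ∧ q.1 ≤ N ∧ q.2 ∈ SolZ (fun x => c * Real.sqrt x) q.1 ω} := rfl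
  rw [h5, h4]
  push_cast
  rw [← sum_add_distrib]
  apply sum_congr rfl
  intro x _
  rw [SolZ_ncard _ _ hω]
  push_cast
  rfl

/-- Both branches, all constants. -/
theorem hall_all : ∀ᵐ ω ∂PP, ∀ c : ℝ, 0 < c →
    Tendsto (fun N : ℕ => (({q : ℕ × ℤ | 1 ≤ q.1 ∧ q.1 ≤ N ∧
      |((q.2 : ℝ) + ω.2) ^ 2 - ((q.1 : ℝ) + ω.1) ^ 3| ≤ c * Real.sqrt q.1}.ncard : ℝ)
        / Real.log N)) atTop (𝓝 (2 * c)) := by
  have h : ∀ᵐ ω ∂PP, ∀ r : {r : ℚ // 0 < r},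
      Tendsto (fun N : ℕ => (({q : ℕ × ℤ | 1 ≤ q.1 ∧ q.1 ≤ N ∧
        |((q.2 : ℝ) + ω.2) ^ 2 - ((q.1 : ℝ) + ω.1) ^ 3| ≤ ((r.1 : ℚ) : ℝ) * Real.sqrt q.1}.ncard : ℝ)
        / Real.log N)) atTop (𝓝 (2 * ((r.1 : ℚ) : ℝ))) := by
    rw [ae_all_iff]
    intro r
    exact hall_two (by exact_mod_cast r.2)
  filter_upwards [h, PP_mem] with ω hω hmem c hc
  have hmono : ∀ {a b : ℝ}, a ≤ b → ∀ N : ℕ, 0 < Real.log N →
      ({q : ℕ × ℤ | 1 ≤ q.1 ∧ q.1 ≤ N ∧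
        |((q.2 : ℝ) + ω.2) ^ 2 - ((q.1 : ℝ) + ω.1) ^ 3| ≤ a * Real.sqrt q.1}.ncard : ℝ) / Real.log N
      ≤ ({q : ℕ × ℤ | 1 ≤ q.1 ∧ q.1 ≤ N ∧
        |((q.2 : ℝ) + ω.2) ^ 2 - ((q.1 : ℝ) + ω.1) ^ 3| ≤ b * Real.sqrt q.1}.ncard : ℝ)
        / Real.log N := by
    intro a b hab N hN
    apply div_le_div_of_nonneg_right _ hN.le
    have h1 : {q : ℕ × ℤ | 1 ≤ q.1 ∧ q.1 ≤ N ∧
        |((q.2 : ℝ) + ω.2) ^ 2 - ((q.1 : ℝ) + ω.1) ^ 3| ≤ a * Real.sqrt q.1}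
        ⊆ {q : ℕ × ℤ | 1 ≤ q.1 ∧ q.1 ≤ N ∧
        |((q.2 : ℝ) + ω.2) ^ 2 - ((q.1 : ℝ) + ω.1) ^ 3| ≤ b * Real.sqrt q.1} := by
      rintro q ⟨h1, h2, h3⟩
      exact ⟨h1, h2, h3.trans (mul_le_mul_of_nonneg_right hab (Real.sqrt_nonneg _))⟩
    have h2 := Set.ncard_le_ncard h1 (pairs_finite
      (fun x => SolZ (fun x => b * Real.sqrt x) x ω) (fun x => SolZ_finite _ x hmem) N)
    exact_mod_cast h2
  have hlog : ∀ᶠ N : ℕ in atTop, 0 < Real.log N :=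
    (Real.tendsto_log_atTop.comp tendsto_natCast_atTop_atTop).eventually (eventually_gt_atTop 0)
  rw [tendsto_order]
  constructor
  · intro a ha
    obtain ⟨r, hr1, hr2⟩ := exists_rat_btwn (show max 0 (a / 2) < c from
      max_lt hc (by linarith))
    have hr0 : 0 < r := by
      have : (0:ℝ) < r := (le_max_left _ _).trans_lt hr1
      exact_mod_cast this
    have hra : a < 2 * (r : ℝ) := by
      have := (le_max_right 0 (a / 2)).trans_lt hr1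
      linarith
    filter_upwards [(hω ⟨r, hr0⟩).eventually (lt_mem_nhds hra), hlog] with N hN hN2
    exact hN.trans_le (hmono hr2.le N hN2)
  · intro a ha
    obtain ⟨r, hr1, hr2⟩ := exists_rat_btwn (show c < a / 2 by linarith)
    have hr0 : 0 < r := by
      have : (0:ℝ) < r := hc.trans hr1
      exact_mod_cast this
    have hra : 2 * (r : ℝ) < a := by linarith
    filter_upwards [(hω ⟨r, hr0⟩).eventually (gt_mem_nhds hra), hlog] with N hN hN2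
    exact (hmono hr1.le N hN2).trans_lt hN

/-- Convergence, one exponent. -/
lemma hall_conv {ε : ℝ} (hε : 0 < ε) : ∀ᵐ ω ∂PP,
    {q : ℕ × ℤ | 1 ≤ q.1 ∧ |((q.2 : ℝ) + ω.2) ^ 2 - ((q.1 : ℝ) + ω.1) ^ 3|
      ≤ (q.1 : ℝ) ^ (1 / 2 - ε)}.Finite := by
  set ψ : ℕ → ℝ := fun x => (x : ℝ) ^ (1 / 2 - ε) with hψdef
  have h1 := count_conv (n := 1) (k := 3) (by norm_num) (ψ := ψ)
    (fun x => by rw [hψdef]; positivity) (ρ := 1) one_pos ?_ ?_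
  · filter_upwards [h1, flip h1, PP_mem] with ω h2 h3 hω
    apply all_finite (fun x => SolZ ψ x ω) (fun x => SolZ_finite _ x hω)
    filter_upwards [h2, h3] with x h4 h5
    rw [SolZ_eq]
    rw [show Sol 2 3 ψ x ω = ∅ from h4, show Sol 2 3 ψ x (ω.1, 1 - ω.2) = ∅ from h5]
    simp
  · filter_upwards [eventually_ge_atTop 1] with x hx1
    have hx0 : (0:ℝ) < x := by exact_mod_cast hx1
    rw [al_hall, hψdef, pow_one, ← Real.rpow_add hx0]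
    dsimp only
    apply Real.rpow_le_rpow_of_exponent_le (by exact_mod_cast hx1)
    linarith
  · have h2 : Summable fun x : ℕ => 1 / 2 * (x : ℝ) ^ (-1 - ε) :=
      (Real.summable_nat_rpow.2 (by linarith)).mul_left _
    rw [← summable_nat_add_iff 1] at h2 ⊢
    refine h2.congr fun x => ?_
    have hx0 : (0:ℝ) < ((x + 1 : ℕ) : ℝ) := by positivity
    rw [del_hall, hψdef]
    dsimp only
    rw [show (-1 - ε : ℝ) = (1 / 2 - ε) - 3 / 2 by ring, Real.rpow_sub hx0]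
    field_simp

theorem hall_conv_all : ∀ᵐ ω ∂PP, ∀ ε : ℝ, 0 < ε →
    {q : ℕ × ℤ | 1 ≤ q.1 ∧ |((q.2 : ℝ) + ω.2) ^ 2 - ((q.1 : ℝ) + ω.1) ^ 3|
      ≤ (q.1 : ℝ) ^ (1 / 2 - ε)}.Finite := by
  have h : ∀ᵐ ω ∂PP, ∀ j : ℕ,
      {q : ℕ × ℤ | 1 ≤ q.1 ∧ |((q.2 : ℝ) + ω.2) ^ 2 - ((q.1 : ℝ) + ω.1) ^ 3|
        ≤ (q.1 : ℝ) ^ (1 / 2 - 1 / ((j : ℝ) + 1))}.Finite := by
    rw [ae_all_iff]
    intro j
    exact hall_conv (by positivity)
  filter_upwards [h] with ω hω ε hε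
  obtain ⟨j, hj⟩ := exists_nat_one_div_lt hε
  apply (hω j).subset
  rintro q ⟨h1, h2⟩
  refine ⟨h1, h2.trans ?_⟩
  apply Real.rpow_le_rpow_of_exponent_le (by exact_mod_cast h1)
  linarith

end Pool.Agent.X100.HT
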