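import Mathlib

/-! A strong law from a bound for the variance. -/

namespace Pool.Agent.X100.HT

open Finset MeasureTheory Filter Topology

variable {Ω : Type*} [MeasurableSpace Ω] {P : Measure Ω}

theorem ae_summable (F : ℕ → Ω → ℝ) (hint : ∀ b, Integrable (F b) P)
    (h0 : ∀ b ω, 0 ≤ F b ω) (hm : ∀ b, Measurable (F b)) (w : ℕ → ℝ) (hw : Summable w)
    (hle : ∀ b, ∫ ω, F b ω ∂P ≤ w b) :
    ∀ᵐ ω ∂P, Summable fun b => F b ω := by
  have h1 : ∫⁻ ω, ∑' b, ENNReal.ofReal (F b ω) ∂P ≠ ⊤ := by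
    rw [lintegral_tsum (fun b => (hm b).ennreal_ofReal.aemeasurable)]
    have h2 : ∀ b, ∫⁻ ω, ENNReal.ofReal (F b ω) ∂P ≤ ENNReal.ofReal (w b) := by
      intro b
      rw [← ofReal_integral_eq_lintegral_ofReal (hint b) (Eventually.of_forall (h0 b))]
      exact ENNReal.ofReal_le_ofReal (hle b)
    have hw0 : ∀ b, 0 ≤ w b := fun b => (integral_nonneg (h0 b)).trans (hle b)
    refine ne_top_of_le_ne_top ?_ (ENNReal.tsum_le_tsum h2)
    rw [← ENNReal.ofReal_tsum_of_nonneg hw0 hw]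
    exact ENNReal.ofReal_ne_top
  have h3 : ∀ᵐ ω ∂P, ∑' b, ENNReal.ofReal (F b ω) < ⊤ :=
    ae_lt_top (Measurable.tsum fun b => (hm b).ennreal_ofReal) h1
  filter_upwards [h3] with ω hω
  have h4 := ENNReal.summable_toReal hω.ne
  exact h4.congr fun b => ENNReal.toReal_ofReal (h0 b ω)

/-- The variance of a sum of functions which are almost independent in pairs. -/
theorem var_le [IsProbabilityMeasure P] {f : ℕ → Ω → ℝ} {p : ℕ → ℝ} {e : ℕ → ℕ → ℝ} {C : ℝ}
    (hm : ∀ x, Measurable (f x)) (h0 : ∀ x ω, 0 ≤ f x ω) (h1 : ∀ x ω, f x ω ≤ 1)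
    (hp : ∀ x, ∫ ω, f x ω ∂P = p x)
    (he : ∀ x y, x < y → ∫ ω, f x ω * f y ω ∂P ≤ p x * p y + e x y)
    (hC : ∀ x n, ∑ y ∈ Ioo x n, e x y ≤ C * p x) (n : ℕ) :
    ∫ ω, (∑ x ∈ range n, (f x ω - p x)) ^ 2 ∂P ≤ (1 + 2 * C) * ∑ x ∈ range n, p x := by
  have hbd : ∀ {g : Ω → ℝ} (M : ℝ), Measurable g → (∀ ω, |g ω| ≤ M) → Integrable g P := by
    intro g M hg hM
    exact Integrable.of_bound hg.aestronglyMeasurable M (Eventually.of_forall hM)
  have hfi : ∀ x, Integrable (f x) P := fun x => hbd 1 (hm x) fun ω => by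
    rw [abs_of_nonneg (h0 x ω)]; exact h1 x ω
  have hffi : ∀ x y, Integrable (fun ω => f x ω * f y ω) P := fun x y =>
    hbd 1 ((hm x).mul (hm y)) fun ω => by
      rw [abs_of_nonneg (mul_nonneg (h0 x ω) (h0 y ω))]
      exact mul_le_one₀ (h1 x ω) (h0 y ω) (h1 y ω)
  have hp0 : ∀ x, 0 ≤ p x := fun x => by rw [← hp x]; exact integral_nonneg (h0 x)
  have hp1 : ∀ x, p x ≤ 1 := fun x => by
    rw [← hp x]
    calc ∫ ω, f x ω ∂P ≤ ∫ _, (1:ℝ) ∂P := integral_mono (hfi x) (integrable_const _) (h1 x)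
      _ = 1 := by simp
  have hprod : ∀ x y, ∫ ω, (f x ω - p x) * (f y ω - p y) ∂P
      = (∫ ω, f x ω * f y ω ∂P) - p x * p y := by
    intro x y
    have e1 : ∀ ω, (f x ω - p x) * (f y ω - p y)
        = f x ω * f y ω - p y * f x ω - p x * f y ω + p x * p y := fun ω => by ring
    simp_rw [e1]
    have i1 : Integrable (fun ω => f x ω * f y ω - p y * f x ω) P :=
      (hffi x y).sub ((hfi x).const_mul _)
    have i2 : Integrable (fun ω => f x ω * f y ω - p y * f x ω - p x * f y ω) P :=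
      i1.sub ((hfi y).const_mul _)
    rw [integral_add i2 (integrable_const _), integral_sub i1
      ((hfi y).const_mul _), integral_sub (hffi x y) ((hfi x).const_mul _),
      integral_const_mul, integral_const_mul, hp, hp]
    simp
    ring
  have hgi : ∀ x y, Integrable (fun ω => (f x ω - p x) * (f y ω - p y)) P := fun x y => by
    apply hbd 1 (((hm x).sub_const _).mul ((hm y).sub_const _))
    intro ω
    change |(f x ω - p x) * (f y ω - p y)| ≤ 1
    rw [abs_mul]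
    apply mul_le_one₀ _ (abs_nonneg _) _
    · rw [abs_le]; constructor <;> linarith [h0 x ω, h1 x ω, hp0 x, hp1 x]
    · rw [abs_le]; constructor <;> linarith [h0 y ω, h1 y ω, hp0 y, hp1 y]
  have key : ∀ n, ∫ ω, (∑ x ∈ range n, (f x ω - p x)) ^ 2 ∂P
      ≤ ∑ y ∈ range n, p y + 2 * ∑ y ∈ range n, ∑ x ∈ range y, e x y := by
    intro n
    induction n with
    | zero => simp
    | succ n ih =>
      have e2 : ∀ ω, (∑ x ∈ range (n + 1), (f x ω - p x)) ^ 2
          = (∑ x ∈ range n, (f x ω - p x)) ^ 2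
            + (2 * (∑ x ∈ range n, (f x ω - p x) * (f n ω - p n))
              + (f n ω - p n) * (f n ω - p n)) := by
        intro ω
        rw [sum_range_succ, ← sum_mul]
        ring
      simp_rw [e2]
      have hI1 : Integrable (fun ω => (∑ x ∈ range n, (f x ω - p x)) ^ 2) P := by
        have : ∀ ω, (∑ x ∈ range n, (f x ω - p x)) ^ 2
            = ∑ x ∈ range n, ∑ y ∈ range n, (f x ω - p x) * (f y ω - p y) := fun ω => by
          rw [sq, sum_mul_sum]
        simp_rw [this]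
        exact integrable_finsetSum _ fun x _ => integrable_finsetSum _ fun y _ => hgi x y
      have hI2 : Integrable (fun ω => ∑ x ∈ range n, (f x ω - p x) * (f n ω - p n)) P :=
        integrable_finsetSum _ fun x _ => hgi x n
      have hI3 : Integrable (fun ω => 2 * (∑ x ∈ range n, (f x ω - p x) * (f n ω - p n))
          + (f n ω - p n) * (f n ω - p n)) P := (hI2.const_mul 2).add (hgi n n)
      rw [integral_add hI1 hI3,
        integral_add (hI2.const_mul 2) (hgi n n), integral_const_mul,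
        integral_finsetSum _ fun x _ => hgi x n, hprod n n, sum_range_succ, sum_range_succ]
      have h3 : ∑ x ∈ range n, ∫ ω, (f x ω - p x) * (f n ω - p n) ∂P ≤ ∑ x ∈ range n, e x n := by
        apply sum_le_sum
        intro x hx
        rw [hprod]
        linarith [he x n (mem_range.1 hx)]
      have h4 : ∫ ω, f n ω * f n ω ∂P ≤ p n := by
        rw [← hp n]
        apply integral_mono (hffi n n) (hfi n)
        intro ω
        have := h0 n ω
        have := h1 n ω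
        change f n ω * f n ω ≤ f n ω
        nlinarith
      have h5 : 0 ≤ p n * p n := mul_nonneg (hp0 n) (hp0 n)
      linarith
  refine (key n).trans ?_
  have hswap : ∑ y ∈ range n, ∑ x ∈ range y, e x y = ∑ x ∈ range n, ∑ y ∈ Ioo x n, e x y := by
    apply sum_comm'
    intro y x
    simp only [mem_range, mem_Ioo]
    omega
  rw [hswap]
  have h6 : ∑ x ∈ range n, ∑ y ∈ Ioo x n, e x y ≤ C * ∑ x ∈ range n, p x := by
    rw [mul_sum]
    exact sum_le_sum fun x _ => hC x n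
  linarith

/-- Interpolation. -/
theorem interp {S Ψ : ℕ → ℝ} (hS : Monotone S) (hS0 : 0 ≤ S 0) (hΨ : Monotone Ψ)
    (hΨ0 : Ψ 0 = 0) (hinc : ∀ n, Ψ (n + 1) ≤ Ψ n + 1) {N : ℕ → ℕ}
    (hN1 : ∀ j : ℕ, ((j : ℝ) + 1) ^ 2 ≤ Ψ (N j)) (hN2 : ∀ j n : ℕ, n < N j → Ψ n < ((j : ℝ) + 1) ^ 2)
    (hinf : Tendsto Ψ atTop atTop)
    (h : Tendsto (fun j : ℕ => ((S (N j) - Ψ (N j)) / Ψ (N j)) ^ 2) atTop (𝓝 0)) :
    Tendsto (fun n => S n / Ψ n) atTop (𝓝 1) := by
  have hΨN : ∀ j, 0 < Ψ (N j) := fun j => lt_of_lt_of_le (by positivity) (hN1 j)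
  have hSn : ∀ n, 0 ≤ S n := fun n => hS0.trans (hS (Nat.zero_le n))
  have ha : Tendsto (fun j => S (N j) / Ψ (N j)) atTop (𝓝 1) := by
    have h1 : Tendsto (fun j => (S (N j) - Ψ (N j)) / Ψ (N j)) atTop (𝓝 0) := by
      rw [tendsto_zero_iff_abs_tendsto_zero]
      have h2 := h.sqrt
      rw [Real.sqrt_zero] at h2
      refine h2.congr fun j => ?_
      rw [Real.sqrt_sq_eq_abs]
      rfl
    have h2 := h1.add_const 1
    rw [zero_add] at h2
    refine h2.congr fun j => ?_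
    rw [sub_div, div_self (hΨN j).ne']
    ring
  have hup : ∀ j : ℕ, Ψ (N j) ≤ ((j : ℝ) + 1) ^ 2 + 1 := by
    intro j
    have h1 : N j ≠ 0 := by
      intro h0
      have := hN1 j
      rw [h0, hΨ0] at this
      have : (0:ℝ) < ((j : ℝ) + 1) ^ 2 := by positivity
      linarith
    obtain ⟨k, hk⟩ := Nat.exists_eq_succ_of_ne_zero h1
    have h2 := hN2 j k (by omega)
    rw [hk]
    have := hinc k
    exact this.trans (by linarith)
  set J : ℕ → ℕ := fun n => ⌊Real.sqrt (Ψ n)⌋₊ - 1 with hJ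
  have hJt : Tendsto J atTop atTop := by
    have h1 : Tendsto (fun n => ⌊Real.sqrt (Ψ n)⌋₊) atTop atTop :=
      tendsto_nat_floor_atTop.comp (Real.tendsto_sqrt_atTop.comp hinf)
    exact (tendsto_sub_atTop_nat 1).comp h1
  have hq1 : Tendsto (fun j : ℕ => (((j : ℝ) + 1) ^ 2) / (((j : ℝ) + 2) ^ 2)) atTop (𝓝 1) := by
    have h1 : Tendsto (fun j : ℕ => 1 - 1 / ((j : ℝ) + 2)) atTop (𝓝 1) := by
      have h2 : Tendsto (fun j : ℕ => 1 / ((j : ℝ) + 2)) atTop (𝓝 0) := by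
        have := tendsto_one_div_atTop_nhds_zero_nat (𝕜 := ℝ)
        have h3 := this.comp (tendsto_add_atTop_nat 2)
        refine h3.congr fun j => ?_
        simp
      simpa using (tendsto_const_nhds (x := (1:ℝ))).sub h2
    have h2 := h1.pow 2
    rw [one_pow] at h2
    refine h2.congr fun j => ?_
    have : (j : ℝ) + 2 ≠ 0 := by positivity
    rw [← div_pow]
    congr 1
    field_simp
    ring
  have hlow : Tendsto (fun j : ℕ => S (N j) / Ψ (N j) * (((j : ℝ) + 1) ^ 2 / ((j : ℝ) + 2) ^ 2))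
      atTop (𝓝 1) := by
    simpa using ha.mul hq1
  have hhigh : Tendsto (fun j : ℕ => S (N (j + 1)) / Ψ (N (j + 1))
      * ((((j : ℝ) + 2) ^ 2 + 1) / ((j : ℝ) + 1) ^ 2)) atTop (𝓝 1) := by
    have h1 := ha.comp (tendsto_add_atTop_nat 1)
    have h2 : Tendsto (fun j : ℕ => (((j : ℝ) + 2) ^ 2 + 1) / ((j : ℝ) + 1) ^ 2) atTop (𝓝 1) := by
      have h3 := hq1.inv₀ one_ne_zero
      have h4 : Tendsto (fun j : ℕ => 1 / ((j : ℝ) + 1) ^ 2) atTop (𝓝 0) := by
        have := (tendsto_one_div_add_atTop_nhds_zero_nat (𝕜 := ℝ)).pow 2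
        rw [zero_pow two_ne_zero] at this
        refine this.congr fun j => ?_
        rw [div_pow, one_pow]
      have h5 := h3.add h4
      rw [inv_one, add_zero] at h5
      refine h5.congr fun j => ?_
      rw [inv_div, ← add_div]
    simpa using h1.mul h2
  refine tendsto_of_tendsto_of_tendsto_of_le_of_le' (hlow.comp hJt) (hhigh.comp hJt) ?_ ?_
  · filter_upwards [hinf.eventually (eventually_ge_atTop 1)] with n hn
    have h1 : 1 ≤ ⌊Real.sqrt (Ψ n)⌋₊ := by
      rw [Nat.one_le_floor_iff]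
      exact Real.one_le_sqrt.2 hn
    have h2 : ((J n : ℕ) : ℝ) + 1 = ⌊Real.sqrt (Ψ n)⌋₊ := by
      rw [hJ]
      dsimp only
      rw [Nat.cast_sub h1]
      push_cast
      ring
    have h3 : ((J n : ℝ) + 1) ^ 2 ≤ Ψ n := by
      rw [h2]
      calc ((⌊Real.sqrt (Ψ n)⌋₊ : ℕ) : ℝ) ^ 2 ≤ (Real.sqrt (Ψ n)) ^ 2 := by
            apply pow_le_pow_left₀ (by positivity)
            exact Nat.floor_le (Real.sqrt_nonneg _)
        _ = Ψ n := Real.sq_sqrt (by linarith)
    have h4 : Ψ n ≤ ((J n : ℝ) + 2) ^ 2 := by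
      have h5 : Real.sqrt (Ψ n) ≤ (J n : ℝ) + 2 := by
        have := Nat.lt_floor_add_one (Real.sqrt (Ψ n))
        linarith
      calc Ψ n = (Real.sqrt (Ψ n)) ^ 2 := (Real.sq_sqrt (by linarith)).symm
        _ ≤ _ := pow_le_pow_left₀ (Real.sqrt_nonneg _) h5 2
    have h5 : N (J n) ≤ n := by
      by_contra hcon
      push Not at hcon
      exact absurd (hN2 (J n) n hcon) (by linarith)
    have hn0 : 0 < Ψ n := by linarith
    change S (N (J n)) / Ψ (N (J n)) * (((J n : ℝ) + 1) ^ 2 / ((J n : ℝ) + 2) ^ 2) ≤ S n / Ψ n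
    calc S (N (J n)) / Ψ (N (J n)) * (((J n : ℝ) + 1) ^ 2 / ((J n : ℝ) + 2) ^ 2)
        = S (N (J n)) / ((J n : ℝ) + 2) ^ 2 * (((J n : ℝ) + 1) ^ 2 / Ψ (N (J n))) := by ring
      _ ≤ S (N (J n)) / ((J n : ℝ) + 2) ^ 2 * 1 := by
          apply mul_le_mul_of_nonneg_left _ (div_nonneg (hSn _) (by positivity))
          rw [div_le_one (hΨN _)]
          exact hN1 _
      _ = S (N (J n)) / ((J n : ℝ) + 2) ^ 2 := mul_one _
      _ ≤ S n / Ψ n := div_le_div₀ (hSn n) (hS h5) hn0 h4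
  · filter_upwards [hinf.eventually (eventually_ge_atTop 1)] with n hn
    have h1 : 1 ≤ ⌊Real.sqrt (Ψ n)⌋₊ := by
      rw [Nat.one_le_floor_iff]
      exact Real.one_le_sqrt.2 hn
    have h2 : ((J n : ℕ) : ℝ) + 1 = ⌊Real.sqrt (Ψ n)⌋₊ := by
      rw [hJ]
      dsimp only
      rw [Nat.cast_sub h1]
      push_cast
      ring
    have h3 : ((J n : ℝ) + 1) ^ 2 ≤ Ψ n := by
      rw [h2]
      calc ((⌊Real.sqrt (Ψ n)⌋₊ : ℕ) : ℝ) ^ 2 ≤ (Real.sqrt (Ψ n)) ^ 2 := by
            apply pow_le_pow_left₀ (by positivity)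
            exact Nat.floor_le (Real.sqrt_nonneg _)
        _ = Ψ n := Real.sq_sqrt (by linarith)
    have h4 : Ψ n < ((J n : ℝ) + 2) ^ 2 := by
      have h5 : Real.sqrt (Ψ n) < (J n : ℝ) + 2 := by
        have := Nat.lt_floor_add_one (Real.sqrt (Ψ n))
        linarith
      calc Ψ n = (Real.sqrt (Ψ n)) ^ 2 := (Real.sq_sqrt (by linarith)).symm
        _ < _ := pow_lt_pow_left₀ h5 (Real.sqrt_nonneg _) two_ne_zero
    have h5 : n ≤ N (J n + 1) := by
      by_contra hcon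
      push Not at hcon
      have h6 := hΨ hcon.le
      have h7 := hN1 (J n + 1)
      push_cast at h7
      have h8 : ((J n : ℝ) + 1 + 1) ^ 2 = ((J n : ℝ) + 2) ^ 2 := by ring
      linarith
    have h9 := hup (J n + 1)
    push_cast at h9
    change S n / Ψ n ≤ S (N (J n + 1)) / Ψ (N (J n + 1))
      * ((((J n : ℝ) + 2) ^ 2 + 1) / ((J n : ℝ) + 1) ^ 2)
    calc S n / Ψ n ≤ S (N (J n + 1)) / ((J n : ℝ) + 1) ^ 2 :=
          div_le_div₀ (hSn _) (hS h5) (by positivity) h3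
      _ = S (N (J n + 1)) / ((J n : ℝ) + 1) ^ 2 * 1 := (mul_one _).symm
      _ ≤ S (N (J n + 1)) / ((J n : ℝ) + 1) ^ 2 * ((((J n : ℝ) + 2) ^ 2 + 1) / Ψ (N (J n + 1))) := by
          apply mul_le_mul_of_nonneg_left _ (div_nonneg (hSn _) (by positivity))
          rw [one_le_div (hΨN _)]
          have h8 : ((J n : ℝ) + 1 + 1) ^ 2 = ((J n : ℝ) + 2) ^ 2 := by ring
          linarith
      _ = _ := by ring

/-- The strong law. -/
theorem strong_law [IsProbabilityMeasure P] {f : ℕ → Ω → ℝ} {p : ℕ → ℝ} {e : ℕ → ℕ → ℝ} {C : ℝ}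
    (hm : ∀ x, Measurable (f x)) (h0 : ∀ x ω, 0 ≤ f x ω) (h1 : ∀ x ω, f x ω ≤ 1)
    (hp : ∀ x, ∫ ω, f x ω ∂P = p x)
    (he : ∀ x y, x < y → ∫ ω, f x ω * f y ω ∂P ≤ p x * p y + e x y)
    (hC : ∀ x n, ∑ y ∈ Ioo x n, e x y ≤ C * p x) (hC0 : 0 ≤ C) (hns : ¬ Summable p) :
    ∀ᵐ ω ∂P, Tendsto (fun n => (∑ x ∈ range n, f x ω) / ∑ x ∈ range n, p x) atTop (𝓝 1) := by
  have hp0 : ∀ x, 0 ≤ p x := fun x => by rw [← hp x]; exact integral_nonneg (h0 x)
  have hfi : ∀ x, Integrable (f x) P := fun x =>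
    Integrable.of_bound (hm x).aestronglyMeasurable 1 (Eventually.of_forall fun ω => by
      rw [Real.norm_eq_abs, abs_of_nonneg (h0 x ω)]; exact h1 x ω)
  have hp1 : ∀ x, p x ≤ 1 := fun x => by
    rw [← hp x]
    calc ∫ ω, f x ω ∂P ≤ ∫ _, (1:ℝ) ∂P := integral_mono (hfi x) (integrable_const _) (h1 x)
      _ = 1 := by simp
  set Ψ : ℕ → ℝ := fun n => ∑ x ∈ range n, p x with hΨ
  have hinf : Tendsto Ψ atTop atTop := (not_summable_iff_tendsto_nat_atTop_of_nonneg hp0).1 hns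
  have hex : ∀ j : ℕ, ∃ n, ((j : ℝ) + 1) ^ 2 ≤ Ψ n := fun j =>
    (hinf.eventually (eventually_ge_atTop (((j : ℝ) + 1) ^ 2))).exists
  classical
  set N : ℕ → ℕ := fun j => Nat.find (hex j) with hN
  have hN1 : ∀ j : ℕ, ((j : ℝ) + 1) ^ 2 ≤ Ψ (N j) := fun j => Nat.find_spec (hex j)
  have hN2 : ∀ j n : ℕ, n < N j → Ψ n < ((j : ℝ) + 1) ^ 2 := fun j n hn =>
    not_le.1 (Nat.find_min (hex j) hn)
  have hpos : ∀ j, 0 < Ψ (N j) := fun j => lt_of_lt_of_le (by positivity) (hN1 j)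
  have hmono : Monotone Ψ := by
    apply monotone_nat_of_le_succ
    intro n
    rw [hΨ]
    dsimp only
    rw [sum_range_succ]
    linarith [hp0 n]
  have hlim := ae_summable (P := P)
    (fun (j : ℕ) ω => ((∑ x ∈ range (N j), f x ω - Ψ (N j)) / Ψ (N j)) ^ 2) ?_ ?_ ?_
    (fun j : ℕ => (1 + 2 * C) / ((j : ℝ) + 1) ^ 2) ?_ ?_
  · filter_upwards [hlim] with ω hω
    refine interp (S := fun n => ∑ x ∈ range n, f x ω) (Ψ := Ψ) (N := N) ?_ (by simp) hmono
      (by rw [hΨ]; simp) ?_ hN1 hN2 hinf hω.tendsto_atTop_zero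
    · apply monotone_nat_of_le_succ
      intro n
      rw [sum_range_succ]
      linarith [h0 n ω]
    · intro n
      rw [hΨ]
      dsimp only
      rw [sum_range_succ]
      linarith [hp1 n]
  · intro j
    refine Integrable.of_bound ?_ ((((N j : ℝ) + Ψ (N j)) / Ψ (N j)) ^ 2) ?_
    · have : Measurable fun ω => ((∑ x ∈ range (N j), f x ω - Ψ (N j)) / Ψ (N j)) ^ 2 := by
        have := Finset.measurable_sum (range (N j)) fun x _ => hm x
        fun_prop
      exact this.aestronglyMeasurable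
    · refine Eventually.of_forall fun ω => ?_
      rw [Real.norm_eq_abs, abs_pow, abs_div, abs_of_pos (hpos j)]
      apply pow_le_pow_left₀ (div_nonneg (abs_nonneg _) (hpos j).le)
      apply div_le_div_of_nonneg_right _ (hpos j).le
      refine (abs_sub _ _).trans ?_
      rw [abs_of_pos (hpos j)]
      apply add_le_add_left
      rw [abs_of_nonneg (sum_nonneg fun x _ => h0 x ω)]
      calc ∑ x ∈ range (N j), f x ω ≤ ∑ x ∈ range (N j), (1:ℝ) := sum_le_sum fun x _ => h1 x ω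
        _ = N j := by simp
  · intro j ω
    positivity
  · intro j
    have := Finset.measurable_sum (range (N j)) fun x _ => hm x
    fun_prop
  · have h1 := (summable_nat_add_iff 1).2 (Real.summable_one_div_nat_pow.2 one_lt_two)
    refine (h1.mul_left (1 + 2 * C)).congr fun j => ?_
    push_cast
    ring
  · intro j
    have h2 := var_le hm h0 h1 hp he hC (N j)
    have e1 : ∀ ω, ((∑ x ∈ range (N j), f x ω - Ψ (N j)) / Ψ (N j)) ^ 2
        = (Ψ (N j) ^ 2)⁻¹ * (∑ x ∈ range (N j), (f x ω - p x)) ^ 2 := by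
      intro ω
      rw [sum_sub_distrib, div_pow, div_eq_inv_mul]
    simp_rw [e1]
    rw [integral_const_mul]
    calc (Ψ (N j) ^ 2)⁻¹ * ∫ ω, (∑ x ∈ range (N j), (f x ω - p x)) ^ 2 ∂P
        ≤ (Ψ (N j) ^ 2)⁻¹ * ((1 + 2 * C) * Ψ (N j)) :=
          mul_le_mul_of_nonneg_left h2 (by positivity)
      _ = (1 + 2 * C) / Ψ (N j) := by
          have := (hpos j).ne'
          field_simp
      _ ≤ (1 + 2 * C) / ((j : ℝ) + 1) ^ 2 :=
          div_le_div_of_nonneg_left (by linarith) (by positivity) (hN1 j)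

end Pool.Agent.X100.HT
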