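import Pool.Agent.X100.HT.Der
import Pool.Agent.X100.HT.Prob

/-! The law for `‖(x + s)^α - t‖ ≤ δ x`. -/

namespace Pool.Agent.X100.HT

open Finset MeasureTheory Filter Topology Pool.Agent.X100.WS

/-- Lebesgue measure on the unit square. -/
noncomputable def PP : Measure (ℝ × ℝ) :=
  (volume.restrict (Set.Icc (0:ℝ) 1)).prod (volume.restrict (Set.Icc (0:ℝ) 1))

instance : IsProbabilityMeasure (volume.restrict (Set.Icc (0:ℝ) 1)) :=
  ⟨by simp⟩

instance : IsProbabilityMeasure PP := by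
  unfold PP; infer_instance

/-- The indicator of the event at `x`. -/
noncomputable def ff (α : ℝ) (δ : ℕ → ℝ) (x : ℕ) (ω : ℝ × ℝ) : ℝ :=
  ind (δ x) (((x : ℝ) + ω.1) ^ α - ω.2)

lemma ff_nonneg (α : ℝ) (δ : ℕ → ℝ) (x : ℕ) (ω : ℝ × ℝ) : 0 ≤ ff α δ x ω := ind_nonneg _ _

lemma ff_le_one (α : ℝ) (δ : ℕ → ℝ) (x : ℕ) (ω : ℝ × ℝ) : ff α δ x ω ≤ 1 := ind_le_one _ _

lemma ff_measurable (α : ℝ) (δ : ℕ → ℝ) (x : ℕ) : Measurable (ff α δ x) := by
  unfold ff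
  fun_prop

lemma PP_integral {F : ℝ × ℝ → ℝ} (hF : Measurable F) (hb : ∀ ω, |F ω| ≤ 1) :
    ∫ ω, F ω ∂PP = ∫ s in (0:ℝ)..1, ∫ t in (0:ℝ)..1, F (s, t) := by
  unfold PP
  rw [integral_prod]
  · rw [intervalIntegral.integral_of_le zero_le_one, integral_Icc_eq_integral_Ioc]
    congr 1
    ext s
    rw [intervalIntegral.integral_of_le zero_le_one, integral_Icc_eq_integral_Ioc]
  · exact Integrable.of_bound hF.aestronglyMeasurable 1 (Eventually.of_forall hb)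

lemma ff_integral {α : ℝ} {δ : ℕ → ℝ} (h0 : ∀ x, 0 ≤ δ x) (h1 : ∀ x, δ x ≤ 1 / 4) (x : ℕ) :
    ∫ ω, ff α δ x ω ∂PP = 2 * δ x := by
  rw [PP_integral (ff_measurable α δ x) fun ω => by
    rw [abs_of_nonneg (ff_nonneg α δ x ω)]; exact ff_le_one α δ x ω]
  unfold ff
  simp_rw [ind_mass' (h0 x) (show δ x < 1 / 2 by linarith [h1 x])]
  simp

lemma ff_pair {α : ℝ} (hα : 1 < α) {δ : ℕ → ℝ} (h0 : ∀ x, 0 ≤ δ x) (h1 : ∀ x, δ x ≤ 1 / 4)
    {x y : ℕ} (hx : 1 ≤ x) (hxy : x < y) :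
    ∫ ω, ff α δ x ω * ff α δ y ω ∂PP
      ≤ 2 * δ x * (2 * δ y) + 16 * δ x * δ y * RR α x ((y : ℝ) - x) := by
  have hmm : Measurable fun ω => ff α δ x ω * ff α δ y ω :=
    (ff_measurable α δ x).mul (ff_measurable α δ y)
  rw [PP_integral hmm fun ω => by
    unfold ff
    exact ind_mul_abs _ _ _ _]
  unfold ff
  simp_rw [pair_eq]
  have hxy' : (x : ℝ) < y := by exact_mod_cast hxy
  have h2 := pair_int hα (h0 x) (h1 x) (h0 y) (h1 y) (x := (x : ℝ)) (h := (y : ℝ) - x)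
    (by exact_mod_cast hx) (by linarith)
  rw [show (x : ℝ) + ((y : ℝ) - x) = y by ring] at h2
  refine h2.trans (le_of_eq ?_)
  ring

/-- Decay of `δ`. -/
def Dec (α : ℝ) (δ : ℕ → ℝ) (η K : ℝ) : Prop :=
  (∀ x, 0 ≤ δ x) ∧ (∀ x, δ x ≤ 1 / 4) ∧ 0 < η ∧ 0 ≤ K ∧
    ∀ x, 1 ≤ x → δ x ≤ K * (x : ℝ) ^ (-(bet α + η))

lemma err_bound {α : ℝ} (hα : 1 < α) {δ : ℕ → ℝ} {η K : ℝ} (h : Dec α δ η K) {x y : ℕ}
    (hx : 1 ≤ x) (hxy : x < y) :
    16 * δ x * δ y * RR α x ((y : ℝ) - x)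
      ≤ 2 * δ x * (8 * (2 ^ bet α * K) / (α * (α - 1)) * ((y - x : ℕ) : ℝ) ^ (-(1 + η))) := by
  obtain ⟨h0, h1, hη, hK, h2⟩ := h
  have hα1 : 0 < α - 1 := by linarith
  have hβ := bet_nonneg α
  have hy : 1 ≤ y := by omega
  have hy0 : (0:ℝ) < y := by exact_mod_cast hy
  have hy1 : (1:ℝ) ≤ y := by exact_mod_cast hy
  have hcast : ((y - x : ℕ) : ℝ) = (y : ℝ) - x := by rw [Nat.cast_sub hxy.le]
  rw [hcast]
  set h := (y : ℝ) - x with hh
  have hxy' : (x : ℝ) < y := by exact_mod_cast hxy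
  have hh0 : 0 < h := by linarith
  have hhy : h ≤ y := by
    have : (0:ℝ) ≤ x := by positivity
    linarith
  unfold RR
  rw [show (x : ℝ) + 1 + h = y + 1 by rw [hh]; ring]
  have h3 : δ y * ((y : ℝ) + 1) ^ bet α ≤ 2 ^ bet α * K * h ^ (-η) := by
    have e1 : ((y : ℝ) + 1) ^ bet α ≤ 2 ^ bet α * (y : ℝ) ^ bet α := by
      rw [← Real.mul_rpow (by norm_num) hy0.le]
      exact Real.rpow_le_rpow (by positivity) (by linarith) hβ
    have e2 : (y : ℝ) ^ (-η) ≤ h ^ (-η) :=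
      Real.rpow_le_rpow_of_nonpos hh0 hhy (by linarith)
    calc δ y * ((y : ℝ) + 1) ^ bet α
        ≤ (K * (y : ℝ) ^ (-(bet α + η))) * (2 ^ bet α * (y : ℝ) ^ bet α) :=
          mul_le_mul (h2 y hy) e1 (by positivity) (by positivity)
      _ = 2 ^ bet α * K * ((y : ℝ) ^ (-(bet α + η)) * (y : ℝ) ^ bet α) := by ring
      _ = 2 ^ bet α * K * (y : ℝ) ^ (-η) := by
          rw [← Real.rpow_add hy0]
          congr 2
          ring
      _ ≤ _ := mul_le_mul_of_nonneg_left e2 (by positivity)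
  calc 16 * δ x * δ y * (((y : ℝ) + 1) ^ bet α / (α * (α - 1) * h))
      = 16 * δ x / (α * (α - 1) * h) * (δ y * ((y : ℝ) + 1) ^ bet α) := by ring
    _ ≤ 16 * δ x / (α * (α - 1) * h) * (2 ^ bet α * K * h ^ (-η)) :=
        mul_le_mul_of_nonneg_left h3 (by have := h0 x; positivity)
    _ = 2 * δ x * (8 * (2 ^ bet α * K) / (α * (α - 1)) * (h ^ (-η) / h)) := by
        field_simp
        ring
    _ = _ := by
        rw [show -(1 + η) = -η - 1 by ring, Real.rpow_sub_one hh0.ne']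

lemma sum_shift (g : ℕ → ℝ) (hg : Summable g) (h0 : ∀ n, 0 ≤ g n) (x n : ℕ) :
    ∑ y ∈ Ioo x n, g (y - x) ≤ ∑' h, g h := by
  have h1 : ∑ y ∈ Ioo x n, g (y - x) = ∑ h ∈ (Ioo x n).image (fun y => y - x), g h := by
    rw [sum_image]
    intro a ha b hb hab
    rw [mem_coe, mem_Ioo] at ha hb
    dsimp only at hab
    omega
  rw [h1]
  exact hg.sum_le_tsum _ fun i _ => h0 i

/-- The constant in the variance bound. -/
noncomputable def Cst (α η K : ℝ) : ℝ :=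
  8 * (2 ^ bet α * K) / (α * (α - 1)) * ∑' h : ℕ, (h : ℝ) ^ (-(1 + η))

theorem law {α : ℝ} (hα : 1 < α) {δ : ℕ → ℝ} {η K : ℝ} (h : Dec α δ η K) (hns : ¬ Summable δ) :
    ∀ᵐ ω ∂PP, Tendsto (fun n => (∑ x ∈ range n, ff α δ (x + 1) ω)
      / ∑ x ∈ range n, 2 * δ (x + 1)) atTop (𝓝 1) := by
  have hh := h
  obtain ⟨h0, h1, hη, hK, h2⟩ := h
  have hα1 : 0 < α - 1 := by linarith
  have hsum : Summable fun h : ℕ => (h : ℝ) ^ (-(1 + η)) :=
    Real.summable_nat_rpow.2 (by linarith)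
  have hg0 : ∀ n : ℕ, 0 ≤ (n : ℝ) ^ (-(1 + η)) := fun n => by positivity
  apply strong_law (P := PP) (f := fun x => ff α δ (x + 1)) (p := fun x => 2 * δ (x + 1))
    (e := fun x y => 2 * δ (x + 1)
      * (8 * (2 ^ bet α * K) / (α * (α - 1)) * ((y - x : ℕ) : ℝ) ^ (-(1 + η))))
    (C := Cst α η K)
    (fun x => ff_measurable _ _ _) (fun x ω => ff_nonneg _ _ _ _) (fun x ω => ff_le_one _ _ _ _)
    (fun x => ff_integral h0 h1 _)
  · intro x y hxy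
    have e1 := ff_pair hα h0 h1 (x := x + 1) (y := y + 1) (by omega) (by omega)
    have e2 := err_bound hα hh (x := x + 1) (y := y + 1) (by omega) (by omega)
    rw [show y + 1 - (x + 1) = y - x by omega] at e2
    linarith
  · intro x n
    rw [← mul_sum, ← mul_sum]
    have e1 := sum_shift _ hsum hg0 x n
    have e2 : 0 ≤ 8 * (2 ^ bet α * K) / (α * (α - 1)) := by positivity
    have e3 := mul_le_mul_of_nonneg_left e1 e2
    have e4 : 0 ≤ 2 * δ (x + 1) := by linarith [h0 (x + 1)]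
    calc 2 * δ (x + 1) * (8 * (2 ^ bet α * K) / (α * (α - 1))
          * ∑ y ∈ Ioo x n, ((y - x : ℕ) : ℝ) ^ (-(1 + η)))
        ≤ 2 * δ (x + 1) * Cst α η K := mul_le_mul_of_nonneg_left e3 e4
      _ = _ := by ring
  · unfold Cst
    have : 0 ≤ ∑' h : ℕ, (h : ℝ) ^ (-(1 + η)) := tsum_nonneg hg0
    positivity
  · intro hs
    apply hns
    have h3 := hs.mul_left (1 / 2)
    have h4 : Summable fun x => δ (x + 1) := h3.congr fun x => by ring
    exact (summable_nat_add_iff 1).1 h4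

theorem law_conv {α : ℝ} {δ : ℕ → ℝ} (h0 : ∀ x, 0 ≤ δ x) (h1 : ∀ x, δ x ≤ 1 / 4)
    (hs : Summable δ) : ∀ᵐ ω ∂PP, Summable fun x => ff α δ x ω := by
  apply ae_summable (P := PP) (fun x => ff α δ x) (fun x => ?_) (fun x ω => ff_nonneg _ _ _ _)
    (fun x => ff_measurable _ _ _) (fun x => 2 * δ x) (hs.mul_left 2)
    (fun x => (ff_integral h0 h1 x).le)
  exact Integrable.of_bound (ff_measurable α δ x).aestronglyMeasurable 1
    (Eventually.of_forall fun ω => by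
      rw [Real.norm_eq_abs, abs_of_nonneg (ff_nonneg α δ x ω)]; exact ff_le_one α δ x ω)

end Pool.Agent.X100.HT
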